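import Mathlib

set_option autoImplicit false

namespace Pool.Agent.Lib.Pb1c9a2

theorem cycleType_invol {X : Type*} [Fintype X] [DecidableEq X] (f : Equiv.Perm X)
    (hf : ∀ x, f (f x) = x) :
    f.cycleType = Multiset.replicate (Multiset.card f.cycleType) 2 := by
  rw [Multiset.eq_replicate]
  refine ⟨rfl, fun n hn => ?_⟩
  have h1 := Equiv.Perm.two_le_of_mem_cycleType hn
  have h2 := Equiv.Perm.dvd_of_mem_cycleType hn
  have h3 : orderOf f ∣ 2 := by
    apply orderOf_dvd_of_pow_eq_one
    ext x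
    rw [pow_two, Equiv.Perm.mul_apply, hf]; rfl
  have h4 := Nat.le_of_dvd (by norm_num) (h2.trans h3)
  omega

/-- Two involutions with equally many points and equally many moved points are conjugate. -/
theorem conj_invol {X Y : Type*} [Fintype X] [Fintype Y] [DecidableEq X] [DecidableEq Y]
    (f : X → X) (g : Y → Y) (hf : ∀ x, f (f x) = x) (hg : ∀ y, g (g y) = y)
    (hc : Fintype.card X = Fintype.card Y)
    (hm : (Finset.univ.filter (fun x => f x ≠ x)).card =
      (Finset.univ.filter (fun y => g y ≠ y)).card) :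
    ∃ e : X ≃ Y, ∀ x, e (f x) = g (e x) := by
  have e0 : X ≃ Y := Fintype.equivOfCardEq hc
  let F : Equiv.Perm X := ⟨f, f, hf, hf⟩
  let G : Equiv.Perm Y := ⟨g, g, hg, hg⟩
  let G' : Equiv.Perm X := (e0.trans G).trans e0.symm
  have hF : ∀ x, F (F x) = x := hf
  have hG' : ∀ x, G' (G' x) = x := by
    intro x
    show e0.symm (g (e0 (e0.symm (g (e0 x))))) = x
    rw [e0.apply_symm_apply, hg, e0.symm_apply_apply]
  have s1 : F.support = Finset.univ.filter (fun x => f x ≠ x) := by
    ext x; simp [F]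
  have s2 : G'.support.card = (Finset.univ.filter (fun y => g y ≠ y)).card := by
    apply Finset.card_bij (fun x _ => e0 x)
    · intro x hx
      rw [Equiv.Perm.mem_support] at hx
      rw [Finset.mem_filter]
      refine ⟨Finset.mem_univ _, fun h => hx ?_⟩
      show e0.symm (g (e0 x)) = x
      rw [h, e0.symm_apply_apply]
    · intro a _ b _ h; exact e0.injective h
    · intro y hy
      rw [Finset.mem_filter] at hy
      refine ⟨e0.symm y, ?_, e0.apply_symm_apply y⟩
      rw [Equiv.Perm.mem_support]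
      intro h
      apply hy.2
      have : e0.symm (g (e0 (e0.symm y))) = e0.symm y := h
      rw [e0.apply_symm_apply] at this
      exact e0.symm.injective this
  have hcyc : F.cycleType = G'.cycleType := by
    rw [cycleType_invol F hF, cycleType_invol G' hG']
    congr 1
    have h1 := Equiv.Perm.sum_cycleType F
    have h2 := Equiv.Perm.sum_cycleType G'
    rw [cycleType_invol F hF, Multiset.sum_replicate, s1, hm, ← s2] at h1
    rw [cycleType_invol G' hG', Multiset.sum_replicate] at h2
    simp only [smul_eq_mul] at h1 h2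
    omega
  obtain ⟨c, hc⟩ := isConj_iff.1 (Equiv.Perm.isConj_iff_cycleType_eq.2 hcyc)
  refine ⟨c.trans e0, fun x => ?_⟩
  have h3 : (c * F * c⁻¹) (c x) = G' (c x) := by rw [hc]
  have h5 : c⁻¹ (c x) = x := c.symm_apply_apply x
  rw [Equiv.Perm.mul_apply, Equiv.Perm.mul_apply, h5] at h3
  show e0 (c (f x)) = g (e0 (c x))
  have h4 : c (f x) = e0.symm (g (e0 (c x))) := h3
  rw [h4, e0.apply_symm_apply]

/-- An automorphism of an involution moving one point to another of the same kind. -/
theorem move_point {Y : Type*} [DecidableEq Y] (g : Y → Y) (hg : ∀ y, g (g y) = y) (c' c : Y)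
    (h : g c' = c' ↔ g c = c) :
    ∃ τ : Equiv.Perm Y, (∀ y, τ (g y) = g (τ y)) ∧ τ c' = c ∧
      ∀ y, y ≠ c → y ≠ c' → y ≠ g c → y ≠ g c' → τ y = y := by
  by_cases h0 : c' = c
  · exact ⟨1, fun y => rfl, h0, fun y _ _ _ _ => rfl⟩
  have ginj : ∀ a b, g a = g b → a = b := fun a b hab => by rw [← hg a, hab, hg]
  by_cases h1 : g c = c
  · have h2 := h.2 h1
    refine ⟨Equiv.swap c' c, ?_, Equiv.swap_apply_left _ _, fun y h3 h4 _ _ =>
      Equiv.swap_apply_of_ne_of_ne h4 h3⟩
    intro y
    by_cases y1 : y = c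
    · rw [y1, h1, Equiv.swap_apply_right, h2]
    by_cases y2 : y = c'
    · rw [y2, h2, Equiv.swap_apply_left, h1]
    rw [Equiv.swap_apply_of_ne_of_ne y2 y1, Equiv.swap_apply_of_ne_of_ne]
    · intro h'; apply y2; apply ginj; rw [h', h2]
    · intro h'; apply y1; apply ginj; rw [h', h1]
  have h2 : g c' ≠ c' := fun h' => h1 (h.1 h')
  by_cases h3 : g c = c'
  · have h4 : g c' = c := by rw [← h3, hg]
    refine ⟨Equiv.swap c' c, ?_, Equiv.swap_apply_left _ _, fun y h5 h6 _ _ =>
      Equiv.swap_apply_of_ne_of_ne h6 h5⟩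
    intro y
    by_cases y1 : y = c
    · rw [y1, h3, Equiv.swap_apply_left, Equiv.swap_apply_right, h4]
    by_cases y2 : y = c'
    · rw [y2, h4, Equiv.swap_apply_right, Equiv.swap_apply_left, h3]
    rw [Equiv.swap_apply_of_ne_of_ne y2 y1, Equiv.swap_apply_of_ne_of_ne]
    · intro h'; apply y1; apply ginj; rw [h', h3]
    · intro h'; apply y2; apply ginj; rw [h', h4]
  -- generic case: four distinct points
  have h4 : g c' ≠ c := fun h' => h3 (by rw [← h', hg])
  have h5 : g c ≠ g c' := fun h' => h0 (ginj _ _ h'.symm)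
  refine ⟨Equiv.swap c' c * Equiv.swap (g c') (g c), ?_, ?_, ?_⟩
  · intro y
    simp only [Equiv.Perm.mul_apply]
    by_cases y1 : y = c
    · rw [y1, Equiv.swap_apply_right,
        Equiv.swap_apply_of_ne_of_ne (a := g c') (b := g c) h4.symm (fun h' => h1 h'.symm),
        Equiv.swap_apply_right, Equiv.swap_apply_of_ne_of_ne h2 h4]
    by_cases y2 : y = c'
    · rw [y2, Equiv.swap_apply_left,
        Equiv.swap_apply_of_ne_of_ne (a := g c') (b := g c) (fun h' => h2 h'.symm)
          (fun h' => h3 h'.symm),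
        Equiv.swap_apply_left, Equiv.swap_apply_of_ne_of_ne h3 h1]
    by_cases y3 : y = g c
    · rw [y3, hg, Equiv.swap_apply_right,
        Equiv.swap_apply_of_ne_of_ne (a := g c') (b := g c) h4.symm (fun h' => h1 h'.symm),
        Equiv.swap_apply_right, Equiv.swap_apply_of_ne_of_ne h2 h4, hg]
    by_cases y4 : y = g c'
    · rw [y4, hg, Equiv.swap_apply_left,
        Equiv.swap_apply_of_ne_of_ne (a := g c') (b := g c) (fun h' => h2 h'.symm)
          (fun h' => h3 h'.symm),
        Equiv.swap_apply_left, Equiv.swap_apply_of_ne_of_ne h3 h1, hg]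
    have z1 : g y ≠ c := fun h' => y3 (by rw [← h', hg])
    have z2 : g y ≠ c' := fun h' => y4 (by rw [← h', hg])
    have z3 : g y ≠ g c := fun h' => y1 (ginj _ _ h')
    have z4 : g y ≠ g c' := fun h' => y2 (ginj _ _ h')
    rw [Equiv.swap_apply_of_ne_of_ne z4 z3, Equiv.swap_apply_of_ne_of_ne z2 z1,
      Equiv.swap_apply_of_ne_of_ne y4 y3, Equiv.swap_apply_of_ne_of_ne y2 y1]
  · rw [Equiv.Perm.mul_apply, Equiv.swap_apply_of_ne_of_ne (a := g c') (b := g c)
      (fun h' => h2 h'.symm) (fun h' => h3 h'.symm), Equiv.swap_apply_left]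
  · intro y y1 y2 y3 y4
    rw [Equiv.Perm.mul_apply, Equiv.swap_apply_of_ne_of_ne y4 y3,
      Equiv.swap_apply_of_ne_of_ne y2 y1]

/-- Pointed version of `conj_invol`. -/
theorem conj_invol_pts {X Y : Type*} [Fintype X] [Fintype Y] [DecidableEq X] [DecidableEq Y]
    (f : X → X) (g : Y → Y) (hf : ∀ x, f (f x) = x) (hg : ∀ y, g (g y) = y)
    (hc : Fintype.card X = Fintype.card Y)
    (hm : (Finset.univ.filter (fun x => f x ≠ x)).card =
      (Finset.univ.filter (fun y => g y ≠ y)).card)
    (a b : X) (c d : Y) (hab : a ≠ b) (hab' : f a ≠ b) (hcd : c ≠ d) (hcd' : g c ≠ d)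
    (hac : f a = a ↔ g c = c) (hbd : f b = b ↔ g d = d) :
    ∃ e : X ≃ Y, (∀ x, e (f x) = g (e x)) ∧ e a = c ∧ e b = d := by
  obtain ⟨e0, he0⟩ := conj_invol f g hf hg hc hm
  have hk : ∀ x, f x = x ↔ g (e0 x) = e0 x := by
    intro x; rw [← he0]; exact (e0.injective.eq_iff).symm
  obtain ⟨τ1, t1, t2, t3⟩ := move_point g hg (e0 a) c (by rw [← hk, hac])
  let e1 : X ≃ Y := e0.trans τ1
  have he1 : ∀ x, e1 (f x) = g (e1 x) := by
    intro x
    show τ1 (e0 (f x)) = g (τ1 (e0 x))
    rw [he0, t1]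
  have h1a : e1 a = c := t2
  have hk1 : ∀ x, f x = x ↔ g (e1 x) = e1 x := by
    intro x; rw [← he1]; exact (e1.injective.eq_iff).symm
  obtain ⟨τ2, u1, u2, u3⟩ := move_point g hg (e1 b) d (by rw [← hk1, hbd])
  refine ⟨e1.trans τ2, ?_, ?_, u2⟩
  · intro x
    show τ2 (e1 (f x)) = g (τ2 (e1 x))
    rw [he1, u1]
  · show τ2 (e1 a) = c
    rw [h1a]
    apply u3
    · exact hcd
    · intro h'
      rw [← h1a] at h'
      exact hab (e1.injective h')
    · intro h'; apply hcd'; rw [h', hg]
    · intro h'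
      apply hab'
      apply e1.injective
      rw [he1, h1a, h', hg]

theorem acyclic_of_small {X : Type*} [DecidableEq X] (H : SimpleGraph X) (T : Finset X)
    (hT : T.card ≤ 2) (hdeg : ∀ x, x ∉ T → ∀ y z, H.Adj x y → H.Adj x z → y = z) :
    H.IsAcyclic := by
  intro v p hp
  have hsub : ∀ w ∈ p.support, w ∈ T := by
    intro w hw
    by_contra hwT
    have h2 := hp.ncard_neighborSet_toSubgraph_eq_two hw
    obtain ⟨x, y, hxy, heq⟩ := Set.ncard_eq_two.1 h2
    have hx : p.toSubgraph.Adj w x := by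
      have : x ∈ p.toSubgraph.neighborSet w := by rw [heq]; simp
      exact this
    have hy : p.toSubgraph.Adj w y := by
      have : y ∈ p.toSubgraph.neighborSet w := by rw [heq]; simp
      exact this
    exact hxy (hdeg w hwT x y hx.adj_sub hy.adj_sub)
  have h3 := hp.three_le_length
  have h4 := hp.support_nodup
  have h5 : p.support.tail.toFinset ⊆ T := by
    intro w hw
    rw [List.mem_toFinset] at hw
    exact hsub w (List.mem_of_mem_tail hw)
  have h6 := Finset.card_le_card h5
  rw [List.toFinset_card_of_nodup h4, List.length_tail, SimpleGraph.Walk.length_support] at h6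
  omega

end Pool.Agent.Lib.Pb1c9a2
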