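import Mathlib
import Pool.Agent.Lib.Pb1c9a2.Iso

set_option autoImplicit false
set_option linter.unusedSectionVars false

namespace Pool.Agent.Lib.Pb1c9a2

variable {V : Type*} [Fintype V] [DecidableEq V]

/-- The desired conclusion. -/
def Good (G : SimpleGraph V) [DecidableRel G.Adj] : Prop :=
  ∃ S : Finset V,
      S.card = Sᶜ.card ∧
      Nonempty (G.induce (S : Set V) ≃g G.induce ((Sᶜ : Finset V) : Set V)) ∧
      (G.induce (S : Set V)).IsAcyclic ∧
      (G.induce ((Sᶜ : Finset V) : Set V)).IsAcyclic ∧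
      (∀ v ∈ S, (S.filter (fun w => G.Adj v w)).card ≤ 2) ∧
      (∀ v ∈ Sᶜ, (Sᶜ.filter (fun w => G.Adj v w)).card ≤ 2) ∧
      (∀ c : (G.induce (S : Set V)).ConnectedComponent, c.supp.ncard ≤ 4) ∧
      (∀ c : (G.induce ((Sᶜ : Finset V) : Set V)).ConnectedComponent, c.supp.ncard ≤ 4)

/-- A cyclic orientation `σ` of a 2-factor together with the complementary matching `μ`. -/
structure Fac (G : SimpleGraph V) (σ : Equiv.Perm V) (μ : V → V) : Prop where
  inv : ∀ v, μ (μ v) = v
  adj : ∀ v w, G.Adj v w ↔ w = σ v ∨ w = σ.symm v ∨ w = μ v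
  ne1 : ∀ v, μ v ≠ v
  ne2 : ∀ v, μ v ≠ σ v
  ne3 : ∀ v, μ v ≠ σ.symm v

/-- The restriction of the matching to a set of vertices. -/
def rest (μ : V → V) (P : V → Prop) [DecidablePred P] (x : {v // P v}) : {v // P v} :=
  if h : P (μ x.1) then ⟨μ x.1, h⟩ else x

theorem rest_invol {μ : V → V} (hμ : ∀ v, μ (μ v) = v) (P : V → Prop) [DecidablePred P]
    (x : {v // P v}) : rest μ P (rest μ P x) = x := by
  unfold rest
  by_cases h : P (μ x.1)
  · have h2 : P (μ (μ x.1)) := by rw [hμ]; exact x.2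
    simp only [h, h2, dif_pos]
    ext; exact hμ _
  · simp only [h, dif_neg, not_false_eq_true]

theorem rest_eq {μ : V → V} (hμ : ∀ v, μ v ≠ v) (P : V → Prop) [DecidablePred P]
    (x : {v // P v}) : rest μ P x = x ↔ ¬ P (μ x.1) := by
  unfold rest
  by_cases h : P (μ x.1)
  · simp only [h, dif_pos, not_true_eq_false, iff_false]
    intro h'
    exact hμ _ (congrArg Subtype.val h')
  · simp [h]

theorem rest_adj {μ : V → V} (hμ : ∀ v, μ v ≠ v) (P : V → Prop) [DecidablePred P]
    (x y : {v // P v}) : (rest μ P x = y ∧ x ≠ y) ↔ y.1 = μ x.1 := by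
  constructor
  · rintro ⟨h1, h2⟩
    unfold rest at h1
    by_cases h : P (μ x.1)
    · simp only [h, dif_pos] at h1
      rw [← h1]
    · simp only [h, dif_neg, not_false_eq_true] at h1
      exact absurd h1 h2
  · intro h
    have hP : P (μ x.1) := by rw [← h]; exact y.2
    refine ⟨?_, ?_⟩
    · unfold rest; simp only [hP, dif_pos]; ext; exact h.symm
    · intro h'; rw [h'] at h; exact hμ _ h.symm

theorem moved_card {μ : V → V} (hμ : ∀ v, μ v ≠ v) (P : V → Prop) [DecidablePred P] :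
    (Finset.univ.filter (fun x : {v // P v} => rest μ P x ≠ x)).card =
      (Finset.univ.filter (fun v => P v ∧ P (μ v))).card := by
  apply Finset.card_bij (fun x _ => x.1)
  · intro x hx
    rw [Finset.mem_filter] at hx ⊢
    have := hx.2
    rw [Ne, rest_eq hμ, not_not] at this
    exact ⟨Finset.mem_univ _, x.2, this⟩
  · intro a _ b _ h; exact Subtype.ext h
  · intro v hv
    rw [Finset.mem_filter] at hv
    refine ⟨⟨v, hv.2.1⟩, ?_, rfl⟩
    rw [Finset.mem_filter, Ne, rest_eq hμ, not_not]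
    exact ⟨Finset.mem_univ _, hv.2.2⟩

theorem mono_card {μ : V → V} (hμ : ∀ v, μ (μ v) = v) (P : V → Prop) [DecidablePred P]
    (h : (Finset.univ.filter (fun v => P v)).card = (Finset.univ.filter (fun v => ¬ P v)).card) :
    (Finset.univ.filter (fun v => P v ∧ P (μ v))).card =
      (Finset.univ.filter (fun v => ¬ P v ∧ ¬ P (μ v))).card := by
  have h1 : (Finset.univ.filter (fun v => P v)).card =
      (Finset.univ.filter (fun v => P v ∧ P (μ v))).card +
      (Finset.univ.filter (fun v => P v ∧ ¬ P (μ v))).card := by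
    rw [← Finset.card_union_of_disjoint]
    · congr 1; ext v; simp only [Finset.mem_filter, Finset.mem_univ, true_and, Finset.mem_union]
      tauto
    · rw [Finset.disjoint_filter]; intro v _; tauto
  have h2 : (Finset.univ.filter (fun v => ¬ P v)).card =
      (Finset.univ.filter (fun v => ¬ P v ∧ ¬ P (μ v))).card +
      (Finset.univ.filter (fun v => ¬ P v ∧ P (μ v))).card := by
    rw [← Finset.card_union_of_disjoint]
    · congr 1; ext v; simp only [Finset.mem_filter, Finset.mem_univ, true_and, Finset.mem_union]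
      tauto
    · rw [Finset.disjoint_filter]; intro v _; tauto
  have h3 : (Finset.univ.filter (fun v => P v ∧ ¬ P (μ v))).card =
      (Finset.univ.filter (fun v => ¬ P v ∧ P (μ v))).card := by
    apply Finset.card_bij (fun v _ => μ v)
    · intro v hv
      simp only [Finset.mem_filter, Finset.mem_univ, true_and] at hv ⊢
      rw [hμ]; exact ⟨hv.2, hv.1⟩
    · intro a _ b _ hab; rw [← hμ a, hab, hμ]
    · intro v hv
      simp only [Finset.mem_filter, Finset.mem_univ, true_and] at hv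
      refine ⟨μ v, ?_, hμ v⟩
      simp only [Finset.mem_filter, Finset.mem_univ, true_and]
      rw [hμ]
      exact ⟨hv.2, hv.1⟩
  omega

theorem comp_le {X : Type*} (H : SimpleGraph X) (k : ℕ)
    (h : ∀ v, ∃ T : Finset X, T.card ≤ k ∧ v ∈ T ∧ ∀ x ∈ T, ∀ y, H.Adj x y → y ∈ T)
    (c : H.ConnectedComponent) : c.supp.ncard ≤ k := by
  induction c using SimpleGraph.ConnectedComponent.ind with
  | h v =>
    obtain ⟨T, hT, hv, hcl⟩ := h v
    have hsub : (H.connectedComponentMk v).supp ⊆ (T : Set X) := by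
      intro w hw
      rw [SimpleGraph.ConnectedComponent.mem_supp_iff, SimpleGraph.ConnectedComponent.eq] at hw
      obtain ⟨p⟩ := hw.symm
      have key : ∀ (a b : X) (q : H.Walk a b), a ∈ T → b ∈ T := by
        intro a b q
        induction q with
        | nil => exact id
        | cons hadj _ ih => intro ha; exact ih (hcl _ ha _ hadj)
      exact key _ _ p hv
    calc (H.connectedComponentMk v).supp.ncard ≤ (T : Set X).ncard :=
          Set.ncard_le_ncard hsub T.finite_toSet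
      _ = T.card := Set.ncard_coe_finset T
      _ ≤ k := hT

theorem comp_aux (G : SimpleGraph V) (P : V → Prop) (k : ℕ)
    (h : ∀ v, P v → ∃ T : Finset V, T.card ≤ k ∧ v ∈ T ∧
      ∀ x ∈ T, P x → ∀ y, P y → G.Adj x y → y ∈ T)
    (c : (G.induce {v | P v}).ConnectedComponent) : c.supp.ncard ≤ k := by
  classical
  apply comp_le
  rintro ⟨v, hv⟩
  obtain ⟨T, h1, h2, h3⟩ := h v hv
  refine ⟨T.subtype (fun v => v ∈ {v | P v}), ?_, ?_, ?_⟩
  · rw [Finset.card_subtype]
    exact (Finset.card_filter_le _ _).trans h1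
  · rw [Finset.mem_subtype]; exact h2
  · intro x hx y hy
    rw [Finset.mem_subtype] at hx ⊢
    exact h3 x.1 hx x.2 y.1 y.2 hy

theorem good_aux (G : SimpleGraph V) [DecidableRel G.Adj] (P : V → Prop) [DecidablePred P]
    (hbal : (Finset.univ.filter (fun v => P v)).card = (Finset.univ.filter (fun v => ¬ P v)).card)
    (hiso : Nonempty (G.induce {v | P v} ≃g G.induce {v | ¬ P v}))
    (hac : (G.induce {v | P v}).IsAcyclic) (hac' : (G.induce {v | ¬ P v}).IsAcyclic)
    (hd : ∀ v, ∃ T : Finset V, T.card ≤ 2 ∧ ∀ w, (P v ↔ P w) → G.Adj v w → w ∈ T)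
    (hk : ∀ v, ∃ T : Finset V, T.card ≤ 4 ∧ v ∈ T ∧
      ∀ x ∈ T, (P v ↔ P x) → ∀ y, (P v ↔ P y) → G.Adj x y → y ∈ T) :
    Good G := by
  have hS : ((Finset.univ.filter (fun v => P v) : Finset V) : Set V) = {v | P v} := by
    ext v; simp
  have hS' : (((Finset.univ.filter (fun v => P v))ᶜ : Finset V) : Set V) = {v | ¬ P v} := by
    ext v; simp
  have hc : (Finset.univ.filter (fun v => P v))ᶜ = Finset.univ.filter (fun v => ¬ P v) := by
    ext v; simp
  refine ⟨Finset.univ.filter (fun v => P v), ?_, ?_, ?_, ?_, ?_, ?_, ?_, ?_⟩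
  · rw [hc]; exact hbal
  · rw [hS, hS']; exact hiso
  · rw [hS]; exact hac
  · rw [hS']; exact hac'
  · intro v hv
    have hPv : P v := by simpa using hv
    obtain ⟨T, hT, hT'⟩ := hd v
    refine (Finset.card_le_card (t := T) ?_).trans hT
    intro w hw
    simp only [Finset.mem_filter, Finset.mem_univ, true_and] at hw
    exact hT' w (by simp [hPv, hw.1]) hw.2
  · intro v hv
    have hPv : ¬ P v := by simpa using hv
    obtain ⟨T, hT, hT'⟩ := hd v
    refine (Finset.card_le_card (t := T) ?_).trans hT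
    intro w hw
    rw [hc] at hw
    simp only [Finset.mem_filter, Finset.mem_univ, true_and] at hw
    exact hT' w (by simp [hPv, hw.1]) hw.2
  · rw [hS]
    apply comp_aux
    intro v hv
    obtain ⟨T, h1, h2, h3⟩ := hk v
    exact ⟨T, h1, h2, fun x hx hPx y hPy hxy =>
      h3 x hx (by simp [hv, hPx]) y (by simp [hv, hPy]) hxy⟩
  · rw [hS']
    apply comp_aux
    intro v hv
    obtain ⟨T, h1, h2, h3⟩ := hk v
    exact ⟨T, h1, h2, fun x hx hPx y hPy hxy =>
      h3 x hx (by simp [hv, hPx]) y (by simp [hv, hPy]) hxy⟩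

/-- Acyclicity of an induced graph that is a matching plus at most one edge. -/
theorem ac_aux (G : SimpleGraph V) {μ : V → V} (P : V → Prop) (T : Finset V) (hT : T.card ≤ 2)
    (h : ∀ x, P x → x ∉ T → ∀ y, P y → G.Adj x y → y = μ x) :
    (G.induce {v | P v}).IsAcyclic := by
  classical
  refine acyclic_of_small _ (T.subtype (fun v => v ∈ {v | P v})) ?_ ?_
  · rw [Finset.card_subtype]
    exact (Finset.card_filter_le _ _).trans hT
  · intro x hx y z hy hz
    rw [Finset.mem_subtype] at hx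
    have h1 := h x.1 x.2 hx y.1 y.2 hy
    have h2 := h x.1 x.2 hx z.1 z.2 hz
    exact Subtype.ext (h1.trans h2.symm)

theorem good_even (G : SimpleGraph V) [DecidableRel G.Adj] {μ : V → V}
    (hμ : ∀ v, μ (μ v) = v) (hμ' : ∀ v, μ v ≠ v) (P : V → Prop) [DecidablePred P]
    (hbal : (Finset.univ.filter (fun v => P v)).card = (Finset.univ.filter (fun v => ¬ P v)).card)
    (hadj : ∀ x y, (P x ↔ P y) → (G.Adj x y ↔ y = μ x)) : Good G := by
  have hm := mono_card hμ P hbal
  have hc : Fintype.card {v // P v} = Fintype.card {v // ¬ P v} := by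
    rw [Fintype.card_subtype, Fintype.card_subtype]; exact hbal
  obtain ⟨e, he⟩ := conj_invol (rest μ P) (rest μ (fun v => ¬ P v)) (rest_invol hμ P)
    (rest_invol hμ _) hc (by rw [moved_card hμ', moved_card hμ']; exact hm)
  refine good_aux G P hbal ⟨⟨e, ?_⟩⟩ ?_ ?_ ?_ ?_
  · intro x y
    show G.Adj (e x).1 (e y).1 ↔ G.Adj x.1 y.1
    rw [hadj x.1 y.1 (by simp [show P x.1 from x.2, show P y.1 from y.2]),
      hadj (e x).1 (e y).1 (by simp [show ¬ P (e x).1 from (e x).2, show ¬ P (e y).1 from (e y).2])]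
    rw [← rest_adj hμ' P x y, ← rest_adj hμ' (fun v => ¬ P v) (e x) (e y), ← he]
    simp
  · refine ac_aux G (μ := μ) P ∅ (by simp) ?_
    intro x hx _ y hy h
    exact (hadj x y (by simp [hx, hy])).1 h
  · refine ac_aux G (μ := μ) (fun v => ¬ P v) ∅ (by simp) ?_
    intro x hx _ y hy h
    exact (hadj x y (by simp [hx, hy])).1 h
  · intro v
    refine ⟨{μ v}, by simp, ?_⟩
    intro w h1 h2
    rw [hadj v w h1] at h2
    simp [h2]
  · intro v
    refine ⟨{v, μ v}, Finset.card_le_two.trans (by norm_num), by simp, ?_⟩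
    intro x hx h1 y h2 h3
    rw [hadj x y (h1.symm.trans h2)] at h3
    simp only [Finset.mem_insert, Finset.mem_singleton] at hx ⊢
    rcases hx with h | h
    · right; rw [h3, h]
    · left; rw [h3, h, hμ]

theorem good_odd (G : SimpleGraph V) [DecidableRel G.Adj] {μ : V → V}
    (hμ : ∀ v, μ (μ v) = v) (hμ' : ∀ v, μ v ≠ v) (P : V → Prop) [DecidablePred P]
    (hbal : (Finset.univ.filter (fun v => P v)).card = (Finset.univ.filter (fun v => ¬ P v)).card)
    (a b c d : V) (Pa : P a) (Pb : P b) (Pc : ¬ P c) (Pd : ¬ P d) (hab : a ≠ b) (hab' : μ a ≠ b)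
    (hcd : c ≠ d) (hcd' : μ c ≠ d)
    (hac : P (μ a) ↔ ¬ P (μ c)) (hbd : P (μ b) ↔ ¬ P (μ d))
    (hadj : ∀ x y, (P x ↔ P y) → (G.Adj x y ↔ y = μ x ∨ (x = a ∧ y = b) ∨ (x = b ∧ y = a) ∨
      (x = c ∧ y = d) ∨ (x = d ∧ y = c))) : Good G := by
  have hm := mono_card hμ P hbal
  have hc : Fintype.card {v // P v} = Fintype.card {v // ¬ P v} := by
    rw [Fintype.card_subtype, Fintype.card_subtype]; exact hbal
  have r1 : ∀ x y : {v // P v}, G.Adj x.1 y.1 ↔
      y.1 = μ x.1 ∨ (x = ⟨a, Pa⟩ ∧ y = ⟨b, Pb⟩) ∨ (x = ⟨b, Pb⟩ ∧ y = ⟨a, Pa⟩) := by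
    rintro ⟨x, hx⟩ ⟨y, hy⟩
    rw [hadj x y (by simp [hx, hy])]
    have h1 : x ≠ c := fun h => Pc (h ▸ hx)
    have h2 : x ≠ d := fun h => Pd (h ▸ hx)
    simp [h1, h2]
  have r2 : ∀ x y : {v // ¬ P v}, G.Adj x.1 y.1 ↔
      y.1 = μ x.1 ∨ (x = ⟨c, Pc⟩ ∧ y = ⟨d, Pd⟩) ∨ (x = ⟨d, Pd⟩ ∧ y = ⟨c, Pc⟩) := by
    rintro ⟨x, hx⟩ ⟨y, hy⟩
    rw [hadj x y (by simp [hx, hy])]
    have h1 : x ≠ a := fun h => hx (h ▸ Pa)
    have h2 : x ≠ b := fun h => hx (h ▸ Pb)
    simp [h1, h2]
  have ne1 : (⟨a, Pa⟩ : {v // P v}) ≠ ⟨b, Pb⟩ := fun h => hab (congrArg Subtype.val h)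
  have ne2 : (⟨c, Pc⟩ : {v // ¬ P v}) ≠ ⟨d, Pd⟩ := fun h => hcd (congrArg Subtype.val h)
  obtain ⟨e, he, hea, heb⟩ := conj_invol_pts (rest μ P) (rest μ (fun v => ¬ P v))
    (rest_invol hμ P)
    (rest_invol hμ _) hc (by rw [moved_card hμ', moved_card hμ']; exact hm)
    ⟨a, Pa⟩ ⟨b, Pb⟩ ⟨c, Pc⟩ ⟨d, Pd⟩ ne1
    (fun h => hab' ((rest_adj hμ' P _ _).1 ⟨h, ne1⟩).symm) ne2
    (fun h => hcd' ((rest_adj hμ' (fun v => ¬ P v) _ _).1 ⟨h, ne2⟩).symm)
    (by rw [rest_eq hμ', rest_eq hμ']; simp only [not_not]; rw [hac]; simp)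
    (by rw [rest_eq hμ', rest_eq hμ']; simp only [not_not]; rw [hbd]; simp)
  refine good_aux G P hbal ⟨⟨e, ?_⟩⟩ ?_ ?_ ?_ ?_
  · intro x y
    show G.Adj (e x).1 (e y).1 ↔ G.Adj x.1 y.1
    rw [r1, r2, ← rest_adj hμ' P x y, ← rest_adj hμ' (fun v => ¬ P v) (e x) (e y), ← he,
      ← hea, ← heb]
    simp only [e.injective.eq_iff, ne_eq, EmbeddingLike.apply_eq_iff_eq]
  · refine ac_aux G (μ := μ) P {a, b} Finset.card_le_two ?_
    intro x hx hT y hy h
    simp only [Finset.mem_insert, Finset.mem_singleton, not_or] at hT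
    have := (r1 ⟨x, hx⟩ ⟨y, hy⟩).1 h
    simpa [hT.1, hT.2] using this
  · refine ac_aux G (μ := μ) (fun v => ¬ P v) {c, d} Finset.card_le_two ?_
    intro x hx hT y hy h
    simp only [Finset.mem_insert, Finset.mem_singleton, not_or] at hT
    have := (r2 ⟨x, hx⟩ ⟨y, hy⟩).1 h
    simpa [hT.1, hT.2] using this
  · intro v
    by_cases hv : P v
    · refine ⟨{μ v, if v = a then b else a}, Finset.card_le_two, ?_⟩
      intro w h1 h2
      have hw : P w := h1.1 hv
      have := (r1 ⟨v, hv⟩ ⟨w, hw⟩).1 h2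
      simp only [Subtype.mk.injEq] at this
      rcases this with h | ⟨h, h'⟩ | ⟨h, h'⟩
      · simp [h]
      · simp [h, h']
      · have : v ≠ a := by rw [h]; exact hab.symm
        simp [this, h']
    · refine ⟨{μ v, if v = c then d else c}, Finset.card_le_two, ?_⟩
      intro w h1 h2
      have hw : ¬ P w := fun h => hv (h1.2 h)
      have := (r2 ⟨v, hv⟩ ⟨w, hw⟩).1 h2
      simp only [Subtype.mk.injEq] at this
      rcases this with h | ⟨h, h'⟩ | ⟨h, h'⟩
      · simp [h]
      · simp [h, h']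
      · have : v ≠ c := by rw [h]; exact hcd.symm
        simp [this, h']
  · intro v
    -- closed sets of at most four vertices
    have main : ∀ (a b : V), (∀ x y, (P a ↔ P x) → (P a ↔ P y) → G.Adj x y →
        y = μ x ∨ (x = a ∧ y = b) ∨ (x = b ∧ y = a)) → (P v ↔ P a) →
        ∃ T : Finset V, T.card ≤ 4 ∧ v ∈ T ∧
          ∀ x ∈ T, (P v ↔ P x) → ∀ y, (P v ↔ P y) → G.Adj x y → y ∈ T := by
      intro a b hr hva
      by_cases hvT : v ∈ ({a, b, μ a, μ b} : Finset V)
      · refine ⟨{a, b, μ a, μ b}, Finset.card_le_four, hvT, ?_⟩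
        intro x hx h1 y h2 h3
        have := hr x y (hva.symm.trans h1) (hva.symm.trans h2) h3
        simp only [Finset.mem_insert, Finset.mem_singleton] at hx ⊢
        rcases this with h | ⟨h, h'⟩ | ⟨h, h'⟩
        · rcases hx with h4 | h4 | h4 | h4
          · right; right; left; rw [h, h4]
          · right; right; right; rw [h, h4]
          · left; rw [h, h4, hμ]
          · right; left; rw [h, h4, hμ]
        · right; left; exact h'
        · left; exact h'
      · refine ⟨{v, μ v}, Finset.card_le_two.trans (by norm_num), by simp, ?_⟩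
        intro x hx h1 y h2 h3
        have := hr x y (hva.symm.trans h1) (hva.symm.trans h2) h3
        simp only [Finset.mem_insert, Finset.mem_singleton, not_or] at hx hvT ⊢
        have hxa : x ≠ a := by
          rcases hx with h | h
          · rw [h]; exact hvT.1
          · intro h4; apply hvT.2.2.1; rw [← h4, h, hμ]
        have hxb : x ≠ b := by
          rcases hx with h | h
          · rw [h]; exact hvT.2.1
          · intro h4; apply hvT.2.2.2; rw [← h4, h, hμ]
        rcases this with h | ⟨h, h'⟩ | ⟨h, h'⟩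
        · rcases hx with h4 | h4
          · right; rw [h, h4]
          · left; rw [h, h4, hμ]
        · exact absurd h hxa
        · exact absurd h hxb
    by_cases hv : P v
    · refine main a b ?_ (by simp [hv, Pa])
      intro x y h1 h2 h3
      have hx : P x := h1.1 Pa
      have hy : P y := h2.1 Pa
      simpa using (r1 ⟨x, hx⟩ ⟨y, hy⟩).1 h3
    · refine main c d ?_ (by simp [hv, Pc])
      intro x y h1 h2 h3
      have hx : ¬ P x := fun h => Pc (h1.2 h)
      have hy : ¬ P y := fun h => Pc (h2.2 h)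
      simpa using (r2 ⟨x, hx⟩ ⟨y, hy⟩).1 h3

end Pool.Agent.Lib.Pb1c9a2
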