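import Mathlib

set_option autoImplicit false

namespace Pool.Agent.Lib.Pb1c9a2

/-- Local data around a crossing of the torus of states: columns are vertices of the first
cycle, rows are vertices of the second cycle. -/
structure Loc where
  A1 : ℤ → ℤ → ℤ
  A2 : ℤ → ℤ → ℤ
  B1 : ℤ → ℤ → ℤ
  B2 : ℤ → ℤ → ℤ
  TC : ℤ → Prop
  TR : ℤ → Prop
  Cr : ℤ → ℤ → Prop
  a1 : ∀ t j, A1 t j = 1 ∨ A1 t j = -1
  b1 : ∀ i r, B1 i r = 1 ∨ B1 i r = -1
  a2x : ∀ t j, TC t → A2 t j = A1 t j
  a2h : ∀ t j, ¬ TC t → A2 t j = - A1 t j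
  b2x : ∀ i r, TR r → B2 i r = B1 i r
  b2h : ∀ i r, ¬ TR r → B2 i r = - B1 i r
  ah : ∀ t j, ¬ TC t → A1 t (j+1) = A1 t j
  ax : ∀ t j, TC t → ¬ Cr t (j+1) → A1 t (j+1) = - A1 t j
  bh : ∀ i r, ¬ TR r → B1 (i+1) r = B1 i r
  bx : ∀ i r, TR r → ¬ Cr (i+1) r → B1 (i+1) r = - B1 i r
  crA : ∀ t r, Cr t r → A1 t r = -1 ∧ A1 t (r-1) = -1
  crB : ∀ t r, Cr t r → B1 t r = 1 ∧ B1 (t-1) r = 1
  crTC : ∀ t r, Cr t r → TC t
  crTR : ∀ t r, Cr t r → TR r
  uC : ∀ t r r', Cr t r → Cr t r' → |r - r'| ≤ 4 → r = r'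
  uR : ∀ t t' r, Cr t r → Cr t' r → |t - t'| ≤ 4 → t = t'
  nz : ∀ i j, A1 i j + A2 (i+1) j + B1 i j + B2 i (j+1) ≠ 0

namespace Loc

variable (L : Loc)

/-- Exchange the two cycles. -/
def swap : Loc where
  A1 := fun t j => - L.B1 j t
  A2 := fun t j => - L.B2 j t
  B1 := fun i r => - L.A1 r i
  B2 := fun i r => - L.A2 r i
  TC := L.TR
  TR := L.TC
  Cr := fun t r => L.Cr r t
  a1 := by intro t j; have := L.b1 j t; omega
  b1 := by intro t j; have := L.a1 j t; omega
  a2x := by intro t j h; rw [L.b2x _ _ h]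
  a2h := by intro t j h; rw [L.b2h _ _ h]
  b2x := by intro t j h; rw [L.a2x _ _ h]
  b2h := by intro t j h; rw [L.a2h _ _ h]
  ah := by intro t j h; rw [L.bh _ _ h]
  ax := by intro t j h h'; rw [L.bx _ _ h h']
  bh := by intro t j h; rw [L.ah _ _ h]
  bx := by intro t j h h'; rw [L.ax _ _ h h']
  crA := by intro t r h; have := L.crB _ _ h; omega
  crB := by intro t r h; have := L.crA _ _ h; omega
  crTC := by intro t r h; exact L.crTR _ _ h
  crTR := by intro t r h; exact L.crTC _ _ h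
  uC := by intro t r r' h h' h''; exact L.uR _ _ _ h h' h''
  uR := by intro t r r' h h' h''; exact L.uC _ _ _ h h' h''
  nz := by intro i j; have := L.nz j i; omega

/-- Reflect the first cycle. -/
def reflC : Loc where
  A1 := fun t j => L.A2 (-t) j
  A2 := fun t j => L.A1 (-t) j
  B1 := fun i r => L.B1 (-1-i) r
  B2 := fun i r => L.B2 (-1-i) r
  TC := fun t => L.TC (-t)
  TR := L.TR
  Cr := fun t r => L.Cr (-t) r
  a1 := by
    intro t j
    have h1 := L.a1 (-t) j
    by_cases h : L.TC (-t)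
    · rw [L.a2x _ _ h]; exact h1
    · rw [L.a2h _ _ h]; omega
  b1 := by intro t j; exact L.b1 _ _
  a2x := by intro t j h; rw [L.a2x _ _ h]
  a2h := by intro t j h; rw [L.a2h _ _ h]; omega
  b2x := by intro t j h; rw [L.b2x _ _ h]
  b2h := by intro t j h; rw [L.b2h _ _ h]
  ah := by intro t j h; rw [L.a2h _ _ h, L.a2h _ _ h, L.ah _ _ h]
  ax := by intro t j h h'; rw [L.a2x _ _ h, L.a2x _ _ h, L.ax _ _ h h']
  bh := by
    intro t j h
    have := L.bh (-1-(t+1)) j h
    rw [show (-1 - (t+1) + 1 : ℤ) = -1 - t by ring] at this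
    exact this.symm
  bx := by
    intro t j h h'
    have h2 : ¬ L.Cr (-1 - (t+1) + 1) j := by
      rw [show (-1 - (t+1) + 1 : ℤ) = -(t+1) by ring]; exact h'
    have := L.bx (-1-(t+1)) j h h2
    rw [show (-1 - (t+1) + 1 : ℤ) = -1 - t by ring] at this
    omega
  crA := by
    intro t r h
    have h1 := L.crA _ _ h
    have h2 := L.crTC _ _ h
    rw [L.a2x _ _ h2, L.a2x _ _ h2]; exact h1
  crB := by
    intro t r h
    have h1 := L.crB _ _ h
    rw [show (-1 - t : ℤ) = -t - 1 by ring, show (-1 - (t-1) : ℤ) = -t by ring]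
    exact ⟨h1.2, h1.1⟩
  crTC := by intro t r h; exact L.crTC _ _ h
  crTR := by intro t r h; exact L.crTR _ _ h
  uC := by intro t r r' h h' h''; exact L.uC _ _ _ h h' h''
  uR := by
    intro t t' r h h' h''
    have h3 : |(-t) - (-t')| ≤ 4 := by
      rw [show (-t - -t' : ℤ) = -(t - t') by ring, abs_neg]; exact h''
    have := L.uR _ _ _ h h' h3
    omega
  nz := by
    intro i j
    have := L.nz (-1-i) j
    rw [show (-1 - i + 1 : ℤ) = -i by ring] at this
    rw [show (-(i+1) : ℤ) = -1 - i by ring]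
    omega

/-- Reflect the second cycle. -/
def reflR : Loc := L.swap.reflC.swap

theorem aconst {L : Loc} {t : ℤ} (h : ¬ L.TC t) (j : ℤ) : L.A1 t j = L.A1 t 0 := by
  induction j using Int.induction_on with
  | zero => rfl
  | succ n ih => rw [L.ah _ _ h]; exact ih
  | pred n ih =>
    have := L.ah t (-(n:ℤ) - 1) h
    rw [show (-(n:ℤ) - 1 + 1) = -(n:ℤ) by ring] at this
    rw [← this]; exact ih

theorem bconst {L : Loc} {r : ℤ} (h : ¬ L.TR r) (i : ℤ) : L.B1 i r = L.B1 0 r := by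
  induction i using Int.induction_on with
  | zero => rfl
  | succ n ih => rw [L.bh _ _ h]; exact ih
  | pred n ih =>
    have := L.bh (-(n:ℤ) - 1) r h
    rw [show (-(n:ℤ) - 1 + 1) = -(n:ℤ) by ring] at this
    rw [← this]; exact ih

theorem ax' (L : Loc) (t j : ℤ) (h : L.TC t) (h' : ¬ L.Cr t j) : L.A1 t j = - L.A1 t (j-1) := by
  have := L.ax t (j-1) h (by rw [sub_add_cancel]; exact h')
  rwa [sub_add_cancel] at this

theorem bx' (L : Loc) (i r : ℤ) (h : L.TR r) (h' : ¬ L.Cr i r) : L.B1 i r = - L.B1 (i-1) r := by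
  have := L.bx (i-1) r h (by rw [sub_add_cancel]; exact h')
  rwa [sub_add_cancel] at this

theorem a2s (L : Loc) (t j : ℤ) : L.A2 t j = 1 ∨ L.A2 t j = -1 := by
  have h1 := L.a1 t j
  by_cases h : L.TC t
  · rw [L.a2x _ _ h]; exact h1
  · rw [L.a2h _ _ h]; omega

theorem b2s (L : Loc) (t j : ℤ) : L.B2 t j = 1 ∨ L.B2 t j = -1 := by
  have h1 := L.b1 t j
  by_cases h : L.TR j
  · rw [L.b2x _ _ h]; exact h1
  · rw [L.b2h _ _ h]; omega

section M0

variable {L : Loc}

theorem lemHH0 (h0 : L.Cr 0 0) (c1 : ¬ L.TC (-1)) (c2 : ¬ L.TC 1)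
    (r1 : ¬ L.TR (-1)) (r2 : ¬ L.TR 1) (hp : L.A2 1 0 = 1) : False := by
  -- column zero
  have tc0 := L.crTC _ _ h0
  have tr0 := L.crTR _ _ h0
  have A00 := (L.crA _ _ h0).1
  have A0m := (L.crA _ _ h0).2
  have B00 := (L.crB _ _ h0).1
  have Bm0 := (L.crB _ _ h0).2
  norm_num at A0m Bm0
  have nC : ∀ r, r ≠ 0 → |r| ≤ 4 → ¬ L.Cr 0 r := by
    intro r hr hr4 h
    exact hr (L.uC _ _ _ h h0 (by simpa using hr4))
  have nR : ∀ t, t ≠ 0 → |t| ≤ 4 → ¬ L.Cr t 0 := by
    intro t ht ht4 h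
    exact ht (L.uR _ _ _ h h0 (by simpa using ht4))
  have A01 : L.A1 0 1 = 1 := by
    have := L.ax 0 0 tc0 (nC _ (by norm_num) (by norm_num)); norm_num at this; omega
  have A02 : L.A1 0 2 = -1 := by
    have := L.ax 0 1 tc0 (nC _ (by norm_num) (by norm_num)); norm_num at this; omega
  have A0m2 : L.A1 0 (-2) = 1 := by
    have := L.ax 0 (-2) tc0 (nC _ (by norm_num) (by norm_num)); norm_num at this; omega
  have B10 : L.B1 1 0 = -1 := by
    have := L.bx 0 0 tr0 (nR _ (by norm_num) (by norm_num)); norm_num at this; omega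
  have X : ∀ j, L.A2 0 j = L.A1 0 j := fun j => L.a2x _ _ tc0
  have Y : ∀ i, L.B2 i 0 = L.B1 i 0 := fun j => L.b2x _ _ tr0
  have ca1 := L.a2h 1 0 c2
  have n00 := L.nz 0 0
  have n0m := L.nz 0 (-1)
  have nm0 := L.nz (-1) 0
  have nmm := L.nz (-1) (-1)
  norm_num at n00 n0m nm0 nmm
  rw [X] at nm0 nmm
  rw [Y] at n0m nmm
  -- constants of the four neighbours
  have e1 : ∀ j, L.A1 1 j = -1 := fun j => by rw [aconst c2]; omega
  have e1' : ∀ j, L.A2 1 j = 1 := fun j => by rw [L.a2h _ _ c2, e1]; rfl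
  have f1 : ∀ i, L.B1 i 1 = -1 := fun i => by
    have h1 := L.b2h 0 1 r2
    have h2 := L.b1 0 1
    rw [bconst r2]; omega
  have f1' : ∀ i, L.B2 i 1 = 1 := fun j => by rw [L.b2h _ _ r2, f1]; rfl
  have e2 : ∀ j, L.A1 (-1) j = 1 := fun j => by
    have h2 := L.a1 (-1) 0
    have h3 := f1' (-1)
    rw [aconst c1]; omega
  have e2' : ∀ j, L.A2 (-1) j = -1 := fun j => by rw [L.a2h _ _ c1, e2]
  have f2 : ∀ i, L.B1 i (-1) = 1 := fun i => by
    have h2 := L.b1 0 (-1)
    have h3 := e1' (-1)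
    rw [bconst r1]; omega
  have f2' : ∀ i, L.B2 i (-1) = -1 := fun j => by rw [L.b2h _ _ r1, f2]
  -- column 2
  have g1 : L.A2 2 0 = -1 := by
    have h := L.nz 1 0; norm_num at h; rw [e1, f1', B10] at h
    have := L.a2s 2 0; omega
  have g2 : L.A2 2 (-1) = -1 := by
    have h := L.nz 1 (-1); norm_num at h; rw [e1, f2, Y, B10] at h
    have := L.a2s 2 (-1); omega
  have g3 : ¬ L.TC 2 := by
    intro h
    rw [L.a2x _ _ h] at g1 g2
    have := L.ax' 2 0 h (nR _ (by norm_num) (by norm_num)); norm_num at this; omega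
  have g4 : ∀ j, L.A1 2 j = 1 := fun j => by
    rw [aconst g3]; rw [L.a2h _ _ g3] at g1; omega
  -- row 2
  have k1 : L.B2 0 2 = 1 := by
    have h := L.nz 0 1; norm_num at h; rw [A01, e1', f1] at h
    have := L.b2s 0 2; omega
  have k2 : L.B2 (-1) 2 = 1 := by
    have h := L.nz (-1) 1; norm_num at h; rw [e2, X, A01, f1] at h
    have := L.b2s (-1) 2; omega
  have k3 : ¬ L.TR 2 := by
    intro h
    rw [L.b2x _ _ h] at k1 k2
    have := L.bx' 0 2 h (nC _ (by norm_num) (by norm_num)); norm_num at this; omega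
  have k4 : ∀ i, L.B1 i 2 = -1 := fun j => by
    rw [bconst k3]; rw [L.b2h _ _ k3] at k1; omega
  have k4' : ∀ i, L.B2 i 2 = 1 := fun j => by rw [L.b2h _ _ k3, k4]; rfl
  -- row 3
  have l1 : L.B2 0 3 = -1 := by
    have h := L.nz 0 2; norm_num at h; rw [A02, e1', k4] at h
    have := L.b2s 0 3; omega
  have l2 : L.B2 (-1) 3 = -1 := by
    have h := L.nz (-1) 2; norm_num at h; rw [e2, X, A02, k4] at h
    have := L.b2s (-1) 3; omega
  have l3 : ¬ L.TR 3 := by
    intro h
    rw [L.b2x _ _ h] at l1 l2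
    have := L.bx' 0 3 h (nC _ (by norm_num) (by norm_num)); norm_num at this; omega
  have l4 : ∀ i, L.B2 i 3 = -1 := fun j => by
    rw [L.b2h _ _ l3, bconst l3]; rw [L.b2h _ _ l3] at l1; omega
  -- row -2
  have m1 : L.B1 0 (-2) = 1 := by
    have h := L.nz 0 (-2); norm_num at h; rw [A0m2, e1', f2'] at h
    have := L.b1 0 (-2); omega
  have m2 : L.B1 (-1) (-2) = 1 := by
    have h := L.nz (-1) (-2); norm_num at h; rw [e2, X, A0m2, f2'] at h
    have := L.b1 (-1) (-2); omega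
  have m3 : ¬ L.TR (-2) := by
    intro h
    have := L.bx' 0 (-2) h (nC _ (by norm_num) (by norm_num)); norm_num at this; omega
  have m4 : ∀ i, L.B1 i (-2) = 1 := fun j => by
    rw [bconst m3]; exact m1
  -- column 3
  have p1 : L.A2 3 1 = 1 := by
    have h := L.nz 2 1; norm_num at h; rw [g4, f1, k4'] at h
    have := L.a2s 3 1; omega
  have p2 : L.A2 3 (-2) = 1 := by
    have h := L.nz 2 (-2); norm_num at h; rw [g4, m4, f2'] at h
    have := L.a2s 3 (-2); omega
  have p3 : L.A2 3 2 = -1 := by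
    have h := L.nz 2 2; norm_num at h; rw [g4, k4, l4] at h
    have := L.a2s 3 2; omega
  by_cases h : L.TC 3
  · rw [L.a2x _ _ h] at p1 p2 p3
    have q1 := L.ax' 3 1 h (fun h' => r2 (L.crTR _ _ h'))
    have q2 := L.ax' 3 0 h (nR _ (by norm_num) (by norm_num))
    have q3 := L.ax' 3 (-1) h (fun h' => r1 (L.crTR _ _ h'))
    norm_num at q1 q2 q3
    omega
  · rw [L.a2h _ _ h, aconst h] at p1 p3
    omega

theorem lemM0 (h0 : L.Cr 0 0) (c1 : ¬ L.TC (-1)) (c2 : L.TC 1)
    (r1 : ¬ L.TR (-1)) (r2 : L.TR 1) (hp : L.A2 1 0 = 1) : False := by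
  have tc0 := L.crTC _ _ h0
  have tr0 := L.crTR _ _ h0
  have A00 := (L.crA _ _ h0).1
  have A0m := (L.crA _ _ h0).2
  have B00 := (L.crB _ _ h0).1
  have Bm0 := (L.crB _ _ h0).2
  norm_num at A0m Bm0
  have nC : ∀ r, r ≠ 0 → |r| ≤ 4 → ¬ L.Cr 0 r := by
    intro r hr hr4 h
    exact hr (L.uC _ _ _ h h0 (by simpa using hr4))
  have nR : ∀ t, t ≠ 0 → |t| ≤ 4 → ¬ L.Cr t 0 := by
    intro t ht ht4 h
    exact ht (L.uR _ _ _ h h0 (by simpa using ht4))
  have A01 : L.A1 0 1 = 1 := by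
    have := L.ax' 0 1 tc0 (nC _ (by norm_num) (by norm_num)); norm_num at this; omega
  have A02 : L.A1 0 2 = -1 := by
    have := L.ax' 0 2 tc0 (nC _ (by norm_num) (by norm_num)); norm_num at this; omega
  have B10 : L.B1 1 0 = -1 := by
    have := L.bx' 1 0 tr0 (nR _ (by norm_num) (by norm_num)); norm_num at this; omega
  have Bm20 : L.B1 (-2) 0 = -1 := by
    have := L.bx' (-1) 0 tr0 (nR _ (by norm_num) (by norm_num)); norm_num at this; omega
  have Bm30 : L.B1 (-3) 0 = 1 := by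
    have := L.bx' (-2) 0 tr0 (nR _ (by norm_num) (by norm_num)); norm_num at this; omega
  have X : ∀ j, L.A2 0 j = L.A1 0 j := fun j => L.a2x _ _ tc0
  have Y : ∀ i, L.B2 i 0 = L.B1 i 0 := fun j => L.b2x _ _ tr0
  have X1 : ∀ j, L.A2 1 j = L.A1 1 j := fun j => L.a2x _ _ c2
  have Y1 : ∀ i, L.B2 i 1 = L.B1 i 1 := fun j => L.b2x _ _ r2
  have A10 : L.A1 1 0 = 1 := by rw [← X1]; exact hp
  have B01 : L.B1 0 1 = 1 := by
    have h := L.nz 0 0; norm_num at h; rw [A00, X1, A10, B00, Y1] at h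
    have := L.b1 0 1; omega
  have A1m : L.A1 1 (-1) = -1 := by
    have := L.ax' 1 0 c2 (nR _ (by norm_num) (by norm_num)); norm_num at this; omega
  have Bm1 : L.B1 (-1) 1 = -1 := by
    have := L.bx' 0 1 r2 (nC _ (by norm_num) (by norm_num)); norm_num at this; omega
  have Am10 : L.A1 (-1) 0 = -1 := by
    have h := L.nz (-1) 0; norm_num at h; rw [X, A00, Bm0, Y1, Bm1] at h
    have := L.a1 (-1) 0; omega
  have e1 : ∀ j, L.A1 (-1) j = -1 := fun j => by rw [aconst c1]; exact Am10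
  have e1' : ∀ j, L.A2 (-1) j = 1 := fun j => by rw [L.a2h _ _ c1, e1]; rfl
  have B0m : L.B1 0 (-1) = -1 := by
    have h := L.nz 0 (-1); norm_num at h; rw [A0m, X1, A1m, Y, B00] at h
    have := L.b1 0 (-1); omega
  have f1 : ∀ i, L.B1 i (-1) = -1 := fun j => by rw [bconst r1]; exact B0m
  have f1' : ∀ i, L.B2 i (-1) = 1 := fun j => by rw [L.b2h _ _ r1, f1]; rfl
  have nC11 : ¬ L.Cr 1 1 := by
    intro h; have := (L.crA _ _ h).2; norm_num at this; omega
  have A11 : L.A1 1 1 = -1 := by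
    have := L.ax' 1 1 c2 nC11; norm_num at this; omega
  have B11 : L.B1 1 1 = -1 := by
    have := L.bx' 1 1 r2 nC11; norm_num at this; omega
  have A220 : L.A2 2 0 = -1 := by
    have h := L.nz 1 0; norm_num at h; rw [A10, B10, Y1, B11] at h
    have := L.a2s 2 0; omega
  have k1 : L.B2 0 2 = 1 := by
    have h := L.nz 0 1; norm_num at h; rw [A01, X1, A11, B01] at h
    have := L.b2s 0 2; omega
  have k2 : L.B2 (-1) 2 = -1 := by
    have h := L.nz (-1) 1; norm_num at h; rw [e1, X, A01, Bm1] at h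
    have := L.b2s (-1) 2; omega
  have tr2 : L.TR 2 := by
    by_contra h
    rw [L.b2h _ _ h, bconst h] at k1 k2; omega
  have Y2 : ∀ i, L.B2 i 2 = L.B1 i 2 := fun j => L.b2x _ _ tr2
  rw [Y2] at k1 k2
  have Bm21 : L.B1 (-2) 1 = 1 := by
    have := L.bx' (-1) 1 r2 (fun h' => c1 (L.crTC _ _ h')); norm_num at this; omega
  have g1 : L.A1 (-2) 0 = 1 := by
    have h := L.nz (-2) 0; norm_num at h; rw [e1', Bm20, Y1, Bm21] at h
    have := L.a1 (-2) 0; omega
  have g2 : L.A1 (-2) (-1) = -1 := by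
    have h := L.nz (-2) (-1); norm_num at h; rw [e1', f1, Y, Bm20] at h
    have := L.a1 (-2) (-1); omega
  have tcm2 : L.TC (-2) := by
    by_contra h
    rw [aconst h] at g1 g2; omega
  have Xm2 : ∀ j, L.A2 (-2) j = L.A1 (-2) j := fun j => L.a2x _ _ tcm2
  have n21 : ¬ L.Cr (-2) 1 := by
    intro h; have := (L.crA _ _ h).2; norm_num at this; omega
  have g3 : L.A1 (-2) 1 = -1 := by
    have := L.ax' (-2) 1 tcm2 n21; norm_num at this; omega
  have Bm31 : L.B1 (-3) 1 = -1 := by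
    have := L.bx' (-2) 1 r2 n21; norm_num at this; omega
  have q1 : L.A1 (-3) 0 = 1 := by
    have h := L.nz (-3) 0; norm_num at h; rw [Xm2, g1, Bm30, Y1, Bm31] at h
    have := L.a1 (-3) 0; omega
  have q2 : L.A1 (-3) (-1) = -1 := by
    have h := L.nz (-3) (-1); norm_num at h; rw [Xm2, g2, f1, Y, Bm30] at h
    have := L.a1 (-3) (-1); omega
  have tcm3 : L.TC (-3) := by
    by_contra h
    rw [aconst h] at q1 q2; omega
  have n31 : ¬ L.Cr (-3) 1 := by
    intro h; have := (L.crA _ _ h).2; norm_num at this; omega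
  have q3 : L.A1 (-3) 1 = -1 := by
    have := L.ax' (-3) 1 tcm3 n31; norm_num at this; omega
  have Bm22 : L.B1 (-2) 2 = 1 := by
    have := L.bx' (-1) 2 tr2 (fun h' => c1 (L.crTC _ _ h')); norm_num at this; omega
  have n21' : ¬ L.Cr 2 1 := by
    intro h; have := (L.crB _ _ h).2; norm_num at this; omega
  have z02 : L.B2 0 3 = L.A1 1 2 := by
    have h := L.nz 0 2; norm_num at h; rw [A02, X1, k1] at h
    have := L.b2s 0 3; have := L.a1 1 2; omega
  by_cases hA : L.Cr 1 2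
  · -- case A
    have w1 := (L.crA _ _ hA).1
    have w2 := (L.crB _ _ hA).1
    have w3 : L.A2 2 1 = -1 := by
      have h := L.nz 1 1; norm_num at h; rw [A11, B11, Y2, w2] at h
      have := L.a2s 2 1; omega
    have w4 : ¬ L.TC 2 := by
      intro h
      rw [L.a2x _ _ h] at A220 w3
      have := L.ax' 2 1 h n21'; norm_num at this; omega
    have w5 : ∀ j, L.A2 2 j = -1 := fun j => by
      rw [L.a2h _ _ w4, aconst w4]; rw [L.a2h _ _ w4] at A220; omega
    have w6 : L.B2 1 3 = -1 := by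
      have h := L.nz 1 2; norm_num at h; rw [w1, w5, w2] at h
      have := L.b2s 1 3; omega
    have w7 : ¬ L.TR 3 := by
      intro h
      rw [L.b2x _ _ h] at w6 z02
      have := L.bx' 1 3 h (fun h' => by
        have := L.uC _ _ _ hA h' (by norm_num); omega)
      norm_num at this; omega
    have w8 : ∀ i, L.B2 i 3 = -1 := fun j => by
      rw [L.b2h _ _ w7, bconst w7]; rw [L.b2h _ _ w7, bconst w7] at w6; omega
    have w9 : L.A1 (-3) 2 = 1 := by
      have := L.ax' (-3) 2 tcm3 (fun h' => by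
        have := L.uR _ _ _ hA h' (by norm_num); omega)
      norm_num at this; omega
    have nm22 : ¬ L.Cr (-2) 2 := fun h' => by
      have := L.uR _ _ _ hA h' (by norm_num); omega
    have w10 : L.A1 (-2) 2 = 1 := by
      have := L.ax' (-2) 2 tcm2 nm22
      norm_num at this; omega
    have w11 : L.B1 (-3) 2 = -1 := by
      have := L.bx' (-2) 2 tr2 nm22
      norm_num at this; omega
    have h := L.nz (-3) 2
    norm_num at h
    rw [w9, Xm2, w10, w11, w8] at h
    omega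
  · have A12 : L.A1 1 2 = 1 := by
      have := L.ax' 1 2 c2 hA; norm_num at this; omega
    have B12 : L.B1 1 2 = -1 := by
      have := L.bx' 1 2 tr2 hA; norm_num at this; omega
    by_cases hB : L.Cr (-2) 2
    · -- case B
      have w1 := (L.crA _ _ hB).1
      have w2 := (L.crB _ _ hB).2
      norm_num at w2
      have w3 : L.B2 (-2) 3 = 1 := by
        have h := L.nz (-2) 2; norm_num at h; rw [w1, e1', Bm22] at h
        have := L.b2s (-2) 3; omega
      have w4 : L.A1 (-3) 2 = 1 := by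
        have := L.ax' (-3) 2 tcm3 (fun h' => by
          have := L.uR _ _ _ hB h' (by norm_num); omega)
        norm_num at this; omega
      have w5 : L.B2 (-3) 3 = 1 := by
        have h := L.nz (-3) 2; norm_num at h; rw [w4, Xm2, w1, w2] at h
        have := L.b2s (-3) 3; omega
      have w6 : ¬ L.TR 3 := by
        intro h
        rw [L.b2x _ _ h] at w3 w5
        have := L.bx' (-2) 3 h (fun h' => by
          have := L.uC _ _ _ hB h' (by norm_num); omega)
        norm_num at this; omega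
      have w7 : ∀ i, L.B2 i 3 = 1 := fun j => by
        rw [L.b2h _ _ w6, bconst w6]; rw [L.b2h _ _ w6, bconst w6] at w5; omega
      have w8 : L.A2 2 2 = 1 := by
        have h := L.nz 1 2; norm_num at h; rw [A12, B12, w7] at h
        have := L.a2s 2 2; omega
      by_cases h : L.TC 2
      · rw [L.a2x _ _ h] at w8 A220
        have y1 := L.ax' 2 1 h n21'
        have y2 := L.ax' 2 2 h (fun h' => by
          have := L.uR _ _ _ hB h' (by norm_num); omega)
        norm_num at y1 y2; omega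
      · rw [L.a2h _ _ h, aconst h] at w8 A220; omega
    · -- case C
      have w1 : L.A1 (-2) 2 = 1 := by
        have := L.ax' (-2) 2 tcm2 hB; norm_num at this; omega
      have w2 : L.B1 (-3) 2 = -1 := by
        have := L.bx' (-2) 2 tr2 hB; norm_num at this; omega
      have n32 : ¬ L.Cr (-3) 2 := fun h' => by
        have := (L.crB _ _ h').1; omega
      have w3 : L.A1 (-3) 2 = 1 := by
        have := L.ax' (-3) 2 tcm3 n32; norm_num at this; omega
      have w4 : L.B2 (-3) 3 = 1 := by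
        have h := L.nz (-3) 2; norm_num at h; rw [w3, Xm2, w1, w2] at h
        have := L.b2s (-3) 3; omega
      have w5 : L.A2 2 2 = -1 := by
        by_cases h : L.TC 2
        · rw [L.a2x _ _ h] at A220 ⊢
          have y1 := L.ax' 2 1 h n21'
          norm_num at y1
          have y2 := L.ax' 2 2 h (fun h' => by
            have := (L.crA _ _ h').2; norm_num at this; omega)
          norm_num at y2; omega
        · rw [L.a2h _ _ h, aconst h] at *; exact A220
      have w6 : L.B2 1 3 = -1 := by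
        have h := L.nz 1 2; norm_num at h; rw [A12, w5, B12] at h
        have := L.b2s 1 3; omega
      by_cases h : L.TR 3
      · rw [L.b2x _ _ h] at z02 w4
        have y0 := L.bx' 0 3 h (nC _ (by norm_num) (by norm_num))
        have y1 := L.bx' (-1) 3 h (fun h' => c1 (L.crTC _ _ h'))
        have y2 := L.bx' (-2) 3 h (fun h' => by
          have := (L.crA _ _ h').2; norm_num at this; omega)
        norm_num at y0 y1 y2; omega
      · rw [L.b2h _ _ h, bconst h] at w6 z02; omega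

theorem parity (h0 : L.Cr 0 0) :
    ((L.TC (-1) ↔ L.TC 1) ↔ (L.TR (-1) ↔ L.TR 1)) ∧
    (¬ L.TC (-1) → ¬ L.TC 1 → L.B2 0 1 = L.A2 1 0) := by
  have tc0 := L.crTC _ _ h0
  have tr0 := L.crTR _ _ h0
  have A00 := (L.crA _ _ h0).1
  have A0m := (L.crA _ _ h0).2
  have B00 := (L.crB _ _ h0).1
  have Bm0 := (L.crB _ _ h0).2
  norm_num at A0m Bm0
  have nC : ∀ r, r ≠ 0 → |r| ≤ 4 → ¬ L.Cr 0 r := by
    intro r hr hr4 h
    exact hr (L.uC _ _ _ h h0 (by simpa using hr4))
  have nR : ∀ t, t ≠ 0 → |t| ≤ 4 → ¬ L.Cr t 0 := by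
    intro t ht ht4 h
    exact ht (L.uR _ _ _ h h0 (by simpa using ht4))
  have X : ∀ j, L.A2 0 j = L.A1 0 j := fun j => L.a2x _ _ tc0
  have Y : ∀ i, L.B2 i 0 = L.B1 i 0 := fun j => L.b2x _ _ tr0
  have n00 := L.nz 0 0
  have n0m := L.nz 0 (-1)
  have nm0 := L.nz (-1) 0
  have nmm := L.nz (-1) (-1)
  norm_num at n00 n0m nm0 nmm
  rw [A00, B00] at n00
  rw [A0m, Y, B00] at n0m
  rw [X, A00, Bm0] at nm0
  rw [X, A0m, Y, Bm0] at nmm
  have s1 := L.a2s 1 0
  have s2 := L.b2s 0 1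
  have s3 := L.a2s 1 (-1)
  have s4 := L.b1 0 (-1)
  have s5 := L.a1 (-1) 0
  have s6 := L.b2s (-1) 1
  have s7 := L.a1 (-1) (-1)
  have s8 := L.b1 (-1) (-1)
  have a : (L.TC (-1) → L.A1 (-1) 0 = - L.A1 (-1) (-1)) ∧
      (¬ L.TC (-1) → L.A1 (-1) 0 = L.A1 (-1) (-1)) := by
    constructor
    · intro h
      have := L.ax' (-1) 0 h (nR _ (by norm_num) (by norm_num)); norm_num at this; exact this
    · intro h; rw [aconst h (-1)]
  have b : (L.TC 1 → L.A2 1 0 = - L.A2 1 (-1)) ∧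
      (¬ L.TC 1 → L.A2 1 0 = L.A2 1 (-1)) := by
    constructor
    · intro h
      have := L.ax' 1 0 h (nR _ (by norm_num) (by norm_num)); norm_num at this
      rw [L.a2x _ _ h, L.a2x _ _ h]; exact this
    · intro h; rw [L.a2h _ _ h, L.a2h _ _ h, aconst h (-1)]
  have c : (L.TR (-1) → L.B1 0 (-1) = - L.B1 (-1) (-1)) ∧
      (¬ L.TR (-1) → L.B1 0 (-1) = L.B1 (-1) (-1)) := by
    constructor
    · intro h
      have := L.bx' 0 (-1) h (nC _ (by norm_num) (by norm_num)); norm_num at this; exact this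
    · intro h; rw [bconst h (-1)]
  have d : (L.TR 1 → L.B2 0 1 = - L.B2 (-1) 1) ∧
      (¬ L.TR 1 → L.B2 0 1 = L.B2 (-1) 1) := by
    constructor
    · intro h
      have := L.bx' 0 1 h (nC _ (by norm_num) (by norm_num)); norm_num at this
      rw [L.b2x _ _ h, L.b2x _ _ h]; exact this
    · intro h; rw [L.b2h _ _ h, L.b2h _ _ h, bconst h (-1)]
  refine ⟨?_, fun _ _ => by omega⟩
  by_cases h1 : L.TC (-1) <;> by_cases h2 : L.TC 1 <;> by_cases h3 : L.TR (-1) <;>
    by_cases h4 : L.TR 1 <;>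
    simp only [h1, h2, h3, h4, true_imp_iff, not_true_eq_false, false_imp_iff,
      not_false_eq_true, and_true, true_and, iff_true, iff_false, true_iff, false_iff,
      iff_self] at a b c d ⊢ <;> omega

/-- Not all four neighbours of a cross edge are of chord type. -/
theorem lemHH (h0 : L.Cr 0 0) (c1 : ¬ L.TC (-1)) (c2 : ¬ L.TC 1)
    (r1 : ¬ L.TR (-1)) (r2 : ¬ L.TR 1) : False := by
  have s1 := L.a2s 1 0
  rcases s1 with h | h
  · exact lemHH0 h0 c1 c2 r1 r2 h
  · have hp := (parity h0).2 c1 c2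
    refine lemHH0 (L := L.swap) h0 r1 r2 c1 c2 ?_
    show - L.B2 0 1 = 1
    omega

theorem lemM1 (h0 : L.Cr 0 0) (c1 : ¬ L.TC (-1)) (c2 : L.TC 1)
    (r1 : ¬ L.TR (-1)) (r2 : L.TR 1) : False := by
  have s1 := L.a2s 1 0
  rcases s1 with h | h
  · exact lemM0 h0 c1 c2 r1 r2 h
  · refine lemM0 (L := L.swap) h0 r1 r2 c1 c2 ?_
    show - L.B2 0 1 = 1
    have A00 := (L.crA _ _ h0).1
    have B00 := (L.crB _ _ h0).1
    have n00 := L.nz 0 0
    norm_num at n00
    have s2 := L.b2s 0 1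
    omega

theorem lemM2 (h0 : L.Cr 0 0) (c1 : ¬ L.TC (-1)) (c2 : L.TC 1) : False := by
  have hp := (parity h0).1
  have hne : ¬ (L.TC (-1) ↔ L.TC 1) := by tauto
  rw [hp] at hne
  by_cases r1 : L.TR (-1)
  · have r2 : ¬ L.TR 1 := by tauto
    -- reflect the rows
    have key : (L.swap.reflC.swap).Cr 0 0 := by
      show L.Cr 0 (-0)
      simpa using h0
    refine lemM1 (L := L.swap.reflC.swap) key c1 c2 ?_ ?_
    · show ¬ L.TR (-(-1)); simpa using r2
    · show L.TR (-1); exact r1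
  · have r2 : L.TR 1 := by tauto
    exact lemM1 h0 c1 c2 r1 r2

/-- The two neighbours on the first cycle of a cross edge have the same type. -/
theorem lemM (h0 : L.Cr 0 0) : L.TC (-1) ↔ L.TC 1 := by
  by_contra hne
  by_cases c1 : L.TC (-1)
  · have c2 : ¬ L.TC 1 := by tauto
    have key : (L.reflC).Cr 0 0 := by
      show L.Cr (-0) 0
      simpa using h0
    refine lemM2 (L := L.reflC) key ?_ ?_
    · show ¬ L.TC (-(-1)); simpa using c2
    · show L.TC (-1); exact c1
  · have c2 : L.TC 1 := by tauto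
    exact lemM2 h0 c1 c2

end M0

end Loc

end Pool.Agent.Lib.Pb1c9a2
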