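import Mathlib
import Pool.Agent.Lib.Pb1c9a2.Local

set_option autoImplicit false

namespace Pool.Agent.Lib.Pb1c9a2

/-- The sign of vertex `k` of an odd cycle coloured alternately with the only monochromatic
edge `{i, i+1}`, both of whose ends have sign `+1`. -/
def cc (n : ℕ) (i k : ZMod n) : ℤ := if Even (k - i - 1).val then 1 else -1

theorem cc_sign (n : ℕ) (i k : ZMod n) : cc n i k = 1 ∨ cc n i k = -1 := by
  unfold cc; split_ifs <;> simp

theorem cc_self {n : ℕ} (hn : Odd n) (i : ZMod n) : cc n i i = 1 := by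
  obtain ⟨a, rfl⟩ := hn
  unfold cc
  have : (i - i - 1 : ZMod (2*a+1)).val = 2 * a := by
    rw [sub_self, zero_sub]; exact ZMod.val_neg_one (2*a)
  rw [this]; simp

theorem cc_pred {n : ℕ} (k : ZMod n) : cc n (k-1) k = 1 := by
  unfold cc
  rw [show k - (k-1) - 1 = 0 by ring]
  simp

theorem val_sub_one {n : ℕ} (hn : 1 < n) {x : ZMod n} (hx : x ≠ 0) :
    (x - 1).val = x.val - 1 ∧ 0 < x.val := by
  haveI : NeZero n := ⟨by omega⟩
  haveI : Fact (1 < n) := ⟨hn⟩
  have h0 : 0 < x.val := by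
    rcases Nat.eq_zero_or_pos x.val with h | h
    · exact absurd ((ZMod.val_eq_zero x).1 h) hx
    · exact h
  refine ⟨?_, h0⟩
  rw [ZMod.val_sub (by rw [ZMod.val_one]; omega), ZMod.val_one]

theorem cc_succ {n : ℕ} (hn : 1 < n) {i k : ZMod n} (h : k ≠ i + 1) :
    cc n (i+1) k = - cc n i k := by
  have hx : k - i - 1 ≠ 0 := by
    intro h'
    apply h
    have : k = (k - i - 1) + (i + 1) := by ring
    rw [h'] at this; rw [this]; ring
  obtain ⟨h1, h2⟩ := val_sub_one hn hx
  unfold cc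
  rw [show k - (i+1) - 1 = (k - i - 1) - 1 by ring, h1]
  have : Even ((k - i - 1).val - 1) ↔ ¬ Even (k - i - 1).val := by
    rw [Nat.even_sub h2]; simp
  by_cases h3 : Even (k - i - 1).val
  · simp [h3, this]
  · simp [h3, this]

section Torus

variable {n₁ n₂ : ℕ}

/-- Signs of all vertices in state `(i, j)`. -/
def sg (i : ZMod n₁) (j : ZMod n₂) : ZMod n₁ ⊕ ZMod n₂ → ℤ :=
  Sum.elim (fun k => cc n₁ i k) (fun l => - cc n₂ j l)

theorem sg_sign (i : ZMod n₁) (j : ZMod n₂) (x : ZMod n₁ ⊕ ZMod n₂) :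
    sg i j x = 1 ∨ sg i j x = -1 := by
  rcases x with k | l
  · exact cc_sign _ _ _
  · have := cc_sign n₂ j l
    show - cc n₂ j l = 1 ∨ - cc n₂ j l = -1
    omega

/-- The data of a matching on two odd cycles in which no state balances. -/
structure NZ (n₁ n₂ : ℕ) (m : ZMod n₁ ⊕ ZMod n₂ → ZMod n₁ ⊕ ZMod n₂) : Prop where
  o1 : Odd n₁
  o2 : Odd n₂
  t1 : 3 ≤ n₁
  t2 : 3 ≤ n₂
  inv : ∀ x, m (m x) = x
  fix : ∀ x, m x ≠ x
  na1 : ∀ k, m (Sum.inl k) ≠ Sum.inl (k+1)
  na2 : ∀ l, m (Sum.inr l) ≠ Sum.inr (l+1)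
  nz : ∀ (i : ZMod n₁) (j : ZMod n₂), sg i j (m (Sum.inl i)) + sg i j (m (Sum.inl (i+1))) +
    sg i j (m (Sum.inr j)) + sg i j (m (Sum.inr (j+1))) ≠ 0

variable {m : ZMod n₁ ⊕ ZMod n₂ → ZMod n₁ ⊕ ZMod n₂}

theorem NZ.swap (h : NZ n₁ n₂ m) : NZ n₂ n₁ (fun x => (m x.swap).swap) where
  o1 := h.o2
  o2 := h.o1
  t1 := h.t2
  t2 := h.t1
  inv := by intro x; simp [h.inv]
  fix := by
    intro x hx
    apply h.fix x.swap
    have := congrArg Sum.swap hx
    simpa using this
  na1 := by
    intro k hx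
    apply h.na2 k
    have := congrArg Sum.swap hx
    simpa using this
  na2 := by
    intro k hx
    apply h.na1 k
    have := congrArg Sum.swap hx
    simpa using this
  nz := by
    intro i j hx
    apply h.nz j i
    have key : ∀ x : ZMod n₁ ⊕ ZMod n₂, sg i j x.swap = - sg j i x := by
      intro x; rcases x with k | l <;> simp [sg]
    simp only [Sum.swap_inl, Sum.swap_inr, key] at hx
    omega

theorem int_cast_ne {n : ℕ} {t : ℤ} (h0 : t ≠ 0) (h : |t| < n) : (t : ZMod n) ≠ 0 := by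
  intro h1
  rw [ZMod.intCast_zmod_eq_zero_iff_dvd] at h1
  have := Int.eq_zero_of_abs_lt_dvd h1 h
  exact h0 this

/-- The local data around a vertex of the torus. -/
noncomputable def NZ.loc (h : NZ n₁ n₂ m) (h5 : 5 ≤ n₁) (h5' : 5 ≤ n₂) (k : ZMod n₁) (l : ZMod n₂) : Loc where
  A1 := fun t j => sg (k + (t:ZMod n₁)) (l + (j : ZMod n₂)) (m (Sum.inl (k + (t:ZMod n₁))))
  A2 := fun t j => sg (k + (t:ZMod n₁) - 1) (l + (j : ZMod n₂)) (m (Sum.inl (k + (t:ZMod n₁))))
  B1 := fun i r => sg (k + (i:ZMod n₁)) (l + (r : ZMod n₂)) (m (Sum.inr (l + (r:ZMod n₂))))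
  B2 := fun i r => sg (k + (i:ZMod n₁)) (l + (r : ZMod n₂) - 1) (m (Sum.inr (l + (r:ZMod n₂))))
  TC := fun t => (m (Sum.inl (k + (t:ZMod n₁)))).isRight
  TR := fun r => (m (Sum.inr (l + (r:ZMod n₂)))).isLeft
  Cr := fun t r => m (Sum.inl (k + (t:ZMod n₁))) = Sum.inr (l + (r:ZMod n₂))
  a1 := fun t j => sg_sign _ _ _
  b1 := fun t j => sg_sign _ _ _
  a2x := by
    intro t j ht
    obtain ⟨r, hr⟩ := Sum.isRight_iff.1 ht
    rw [hr]; rfl
  a2h := by
    intro t j ht
    rcases hm : m (Sum.inl (k + (t:ZMod n₁))) with k' | r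
    · have hne : k' ≠ k + t := by
        intro h'; rw [h'] at hm; exact h.fix _ hm
      show cc n₁ _ _ = - cc n₁ _ _
      have := cc_succ (n := n₁) (by have := h.t1; omega) (i := k + (t:ZMod n₁) - 1) (k := k')
        (by rw [sub_add_cancel]; exact hne)
      rw [sub_add_cancel] at this
      omega
    · rw [hm] at ht; simp at ht
  b2x := by
    intro t j ht
    obtain ⟨r, hr⟩ := Sum.isLeft_iff.1 ht
    rw [hr]; rfl
  b2h := by
    intro i r ht
    rcases hm : m (Sum.inr (l + (r:ZMod n₂))) with k' | r'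
    · rw [hm] at ht; simp at ht
    · have hne : r' ≠ l + r := by
        intro h'; rw [h'] at hm; exact h.fix _ hm
      show - cc n₂ _ _ = - - cc n₂ _ _
      have := cc_succ (n := n₂) (by have := h.t2; omega) (i := l + (r:ZMod n₂) - 1) (k := r')
        (by rw [sub_add_cancel]; exact hne)
      rw [sub_add_cancel] at this
      omega
  ah := by
    intro t j ht
    rcases hm : m (Sum.inl (k + (t:ZMod n₁))) with k' | r
    · rfl
    · rw [hm] at ht; simp at ht
  ax := by
    intro t j ht hc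
    obtain ⟨r, hr⟩ := Sum.isRight_iff.1 ht
    rw [hr] at hc ⊢
    show - cc n₂ _ _ = - - cc n₂ _ _
    have hne : r ≠ (l + (j : ZMod n₂)) + 1 := by
      intro h'; apply hc; rw [h']; push_cast; rw [add_assoc]
    have := cc_succ (n := n₂) (by have := h.t2; omega) hne
    rw [← this]; push_cast; rw [add_assoc]
  bh := by
    intro i r ht
    rcases hm : m (Sum.inr (l + (r:ZMod n₂))) with k' | r'
    · rw [hm] at ht; simp at ht
    · rfl
  bx := by
    intro i r ht hc
    obtain ⟨k', hr⟩ := Sum.isLeft_iff.1 ht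
    rw [hr]
    show cc n₁ _ _ = - cc n₁ _ _
    have hne : k' ≠ (k + (i : ZMod n₁)) + 1 := by
      intro h'; apply hc
      have := h.inv (Sum.inr (l + (r:ZMod n₂)))
      rw [hr, h'] at this
      rw [← this]; push_cast; rw [add_assoc]
    have := cc_succ (n := n₁) (by have := h.t1; omega) hne
    rw [← this]; push_cast; rw [add_assoc]
  crA := by
    intro t r hc
    rw [hc]
    refine ⟨?_, ?_⟩
    · show - cc n₂ _ _ = -1
      rw [cc_self h.o2]
    · show - cc n₂ _ _ = -1
      have := cc_pred (n := n₂) (l + (r : ZMod n₂))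
      push_cast
      rw [← add_sub_assoc, this]
  crB := by
    intro t r hc
    have : m (Sum.inr (l + (r:ZMod n₂))) = Sum.inl (k + (t:ZMod n₁)) := by
      rw [← hc, h.inv]
    rw [this]
    refine ⟨?_, ?_⟩
    · show cc n₁ _ _ = 1
      rw [cc_self h.o1]
    · show cc n₁ _ _ = 1
      have := cc_pred (n := n₁) (k + (t : ZMod n₁))
      push_cast
      rw [← add_sub_assoc, this]
  crTC := by intro t r hc; rw [hc]; rfl
  crTR := by
    intro t r hc
    have : m (Sum.inr (l + (r:ZMod n₂))) = Sum.inl (k + (t:ZMod n₁)) := by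
      rw [← hc, h.inv]
    rw [this]; rfl
  uC := by
    intro t r r' hc hc' h4
    rw [hc] at hc'
    have h6 := Sum.inr.inj hc'
    by_contra hne
    have := int_cast_ne (n := n₂) (t := r - r') (by omega) (by omega)
    apply this
    push_cast
    have : (r : ZMod n₂) = r' := add_left_cancel h6
    rw [this, sub_self]
  uR := by
    intro t t' r hc hc' h4
    have h6 : m (m (Sum.inl (k + (t:ZMod n₁)))) = m (m (Sum.inl (k + (t':ZMod n₁)))) := by
      rw [hc, hc']
    rw [h.inv, h.inv] at h6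
    have h6 := Sum.inl.inj h6
    by_contra hne
    have := int_cast_ne (n := n₁) (t := t - t') (by omega) (by omega)
    apply this
    push_cast
    have : (t : ZMod n₁) = t' := add_left_cancel h6
    rw [this, sub_self]
  nz := by
    intro i j
    have := h.nz (k + (i:ZMod n₁)) (l + (j:ZMod n₂))
    push_cast
    rw [← add_assoc, ← add_assoc, add_sub_cancel_right, add_sub_cancel_right]
    exact this

end Torus

end Pool.Agent.Lib.Pb1c9a2
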