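import Mathlib
import Pool.Agent.Lib.Pb1c9a2.Torus

set_option autoImplicit false

namespace Pool.Agent.Lib.Pb1c9a2

theorem cc_of {n : ℕ} {i k : ZMod n} {c : ℕ} (h : k - i - 1 = (c : ZMod n)) (hc : c < n) :
    cc n i k = if Even c then 1 else -1 := by
  unfold cc
  rw [h, ZMod.val_natCast_of_lt hc]

theorem path_odd {n : ℕ} (hn : Odd n) (s e : ZMod n) (β : ZMod n → ℤ)
    (hβ : ∀ i, β i = 1 ∨ β i = -1) (hs : β s = -1) (he : β e = -1)
    (hz : ∀ i, β i + β (i+1) + cc n i s + cc n i e ≠ 0) (hD : Odd (e - s).val) : False := by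
  have hnpos : 0 < n := hn.pos
  have : NeZero n := ⟨by omega⟩
  set D := (e - s).val with hDdef
  have hDn : D < n := ZMod.val_lt _
  have heD : e = s + (D : ZMod n) := by
    rw [hDdef, ZMod.natCast_zmod_val]; ring
  have key : ∀ t : ℕ, t ≤ D → β (s + (t : ZMod n)) = if Even t then -1 else 1 := by
    intro t
    induction t with
    | zero => intro _; simpa using hs
    | succ t ih =>
      intro ht
      have h1 := ih (by omega)
      have h2 := hz (s + (t : ZMod n))
      have c1 : cc n (s + (t : ZMod n)) s = if Even (n - 1 - t) then 1 else -1 := by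
        apply cc_of _ (by omega)
        have : ((n - 1 - t : ℕ) : ZMod n) = (n : ZMod n) - 1 - t := by
          rw [Nat.cast_sub (by omega), Nat.cast_sub (by omega)]; simp
        rw [this]; simp; ring
      have c2 : cc n (s + (t : ZMod n)) e = if Even (D - (t + 1)) then 1 else -1 := by
        apply cc_of _ (by omega)
        rw [Nat.cast_sub ht, heD]; push_cast; ring
      have e1 : Even (n - 1 - t) ↔ Even t := by
        obtain ⟨a, ha⟩ := hn
        rw [show n - 1 - t = 2 * a - t by omega, Nat.even_sub (by omega)]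
        simp
      have e2 : Even (D - (t+1)) ↔ Even t := by
        obtain ⟨a, ha⟩ := hD
        rw [Nat.even_sub ht, ha]
        simp only [Nat.even_add_one, even_two, Even.mul_right, not_true_eq_false, false_iff,
          not_not]
      have h3 := hβ (s + (t : ZMod n) + 1)
      have h4 : s + ((t + 1 : ℕ) : ZMod n) = s + (t : ZMod n) + 1 := by push_cast; ring
      rw [h4]
      rw [c1, c2, h1] at h2
      simp only [e1, e2] at h2
      by_cases ht2 : Even t
      · have : ¬ Even (t+1) := by rw [Nat.even_add_one]; simpa using ht2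
        simp only [ht2, this, if_true, if_false] at h2 ⊢
        omega
      · have : Even (t+1) := by rw [Nat.even_add_one]; exact ht2
        simp only [ht2, this, if_true, if_false] at h2 ⊢
        omega
  have h5 := key D le_rfl
  rw [← heD, he] at h5
  have : ¬ Even D := by rw [Nat.not_even_iff_odd]; exact hD
  simp [this] at h5

variable {n₁ n₂ : ℕ} {m : ZMod n₁ ⊕ ZMod n₂ → ZMod n₁ ⊕ ZMod n₂}

/-- No two consecutive rows are of cross type if all columns are. -/
theorem NZ.noXX (h : NZ n₁ n₂ m) (π : ZMod n₁ → ZMod n₂) (hπ : ∀ k, m (Sum.inl k) = Sum.inr (π k))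
    (l : ZMod n₂) (k k' : ZMod n₁) (h1 : m (Sum.inr l) = Sum.inl k)
    (h2 : m (Sum.inr (l+1)) = Sum.inl k') : False := by
  have hn := h.o1
  have : NeZero n₁ := ⟨by have := h.t1; omega⟩
  have p1 : π k = l := by
    have := h.inv (Sum.inr l); rw [h1, hπ] at this; exact Sum.inr.inj this
  have p2 : π k' = l + 1 := by
    have := h.inv (Sum.inr (l+1)); rw [h2, hπ] at this; exact Sum.inr.inj this
  have hkk : k ≠ k' := by
    intro hk; rw [hk, p2] at p1
    have : (1 : ZMod n₂) = 0 := by
      have h3 : l + 1 = l + 0 := by rw [p1, add_zero]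
      exact add_left_cancel h3
    have h4 := int_cast_ne (n := n₂) (t := 1) (by norm_num) (by have := h.t2; norm_num; omega)
    apply h4; push_cast; exact this
  set β : ZMod n₁ → ℤ := fun i => - cc n₂ l (π i) with hβdef
  have hβ : ∀ i, β i = 1 ∨ β i = -1 := by
    intro i; have := cc_sign n₂ l (π i); simp only [hβdef]; omega
  have hk : β k = -1 := by
    simp only [hβdef]; rw [p1, cc_self h.o2]
  have hk' : β k' = -1 := by
    simp only [hβdef]; rw [p2]
    have := cc_pred (n := n₂) (l+1)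
    rw [add_sub_cancel_right] at this
    rw [this]
  have hz : ∀ i, β i + β (i+1) + cc n₁ i k + cc n₁ i k' ≠ 0 := by
    intro i
    have := h.nz i l
    rw [hπ, hπ, h1, h2] at this
    exact this
  rcases Nat.even_or_odd (k' - k).val with he | ho
  · -- the other direction is odd
    have h3 : (k - k').val = n₁ - (k' - k).val := by
      have hne : k' - k ≠ 0 := fun h => hkk (sub_eq_zero.1 h).symm
      have : NeZero (k' - k) := ⟨hne⟩
      rw [← neg_sub, ZMod.val_neg_of_ne_zero]
    have hlt : (k' - k).val < n₁ := ZMod.val_lt _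
    have hodd : Odd (k - k').val := by
      rw [h3, Nat.odd_sub hlt.le]
      exact ⟨fun _ => he, fun _ => hn⟩
    refine path_odd hn k' k β hβ hk' hk ?_ hodd
    intro i; have := hz i; omega
  · exact path_odd hn k k' β hβ hk hk' hz ho

/-- Around an isolated cross row all columns but the partner agree. -/
theorem NZ.iso (h : NZ n₁ n₂ m) (π : ZMod n₁ → ZMod n₂) (hπ : ∀ k, m (Sum.inl k) = Sum.inr (π k))
    (l : ZMod n₂) (k : ZMod n₁) (h0 : m (Sum.inr l) = Sum.inl k) :
    (cc n₂ l (π k) = 1 ∧ cc n₂ (l-1) (π k) = 1) ∧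
    ∃ ρ : ℤ, (ρ = 1 ∨ ρ = -1) ∧
      ∀ i, i ≠ k → - cc n₂ l (π i) = ρ ∧ - cc n₂ (l-1) (π i) = - ρ := by
  have hn := h.o1
  have t1 := h.t1
  have t2 := h.t2
  have : NeZero n₁ := ⟨by omega⟩
  have p1 : π k = l := by
    have := h.inv (Sum.inr l); rw [h0, hπ] at this; exact Sum.inr.inj this
  have e1 : cc n₂ l (π k) = 1 := by rw [p1, cc_self h.o2]
  have e2 : cc n₂ (l-1) (π k) = 1 := by rw [p1, cc_pred]
  refine ⟨⟨e1, e2⟩, ?_⟩
  -- neighbours are of chord type
  rcases hp : m (Sum.inr (l+1)) with k' | p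
  · exact (h.noXX π hπ l k k' h0 hp).elim
  rcases hq : m (Sum.inr (l-1)) with k' | q
  · exact (h.noXX π hπ (l-1) k' k hq (by rw [sub_add_cancel]; exact h0)).elim
  have hflip : ∀ i, i ≠ k → cc n₂ (l-1) (π i) = - cc n₂ l (π i) := by
    intro i hi
    have hne : π i ≠ (l - 1) + 1 := by
      rw [sub_add_cancel]
      intro h'
      apply hi
      have := h.inv (Sum.inl i)
      rw [hπ, h', h0] at this
      exact (Sum.inl.inj this).symm
    have := cc_succ (n := n₂) (by omega) hne
    rw [sub_add_cancel] at this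
    omega
  have z1 : ∀ i, - cc n₂ l (π i) + - cc n₂ l (π (i+1)) + cc n₁ i k + - cc n₂ l p ≠ 0 := by
    intro i
    have := h.nz i l
    rw [hπ, hπ, h0, hp] at this
    exact this
  have z2 : ∀ i, - cc n₂ (l-1) (π i) + - cc n₂ (l-1) (π (i+1)) + - cc n₂ (l-1) q +
      cc n₁ i k ≠ 0 := by
    intro i
    have := h.nz i (l-1)
    rw [hπ, hπ, hq, sub_add_cancel, h0] at this
    exact this
  have hk1 : k + 1 ≠ k := by
    intro h'
    have h4 := int_cast_ne (n := n₁) (t := 1) (by norm_num) (by norm_num; omega)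
    apply h4; push_cast
    have : k + 1 = k + 0 := by rw [h', add_zero]
    exact add_left_cancel this
  have hk2 : k - 1 - 1 ≠ k := by
    intro h'
    have h4 := int_cast_ne (n := n₁) (t := 2) (by norm_num) (by norm_num; omega)
    apply h4; push_cast
    have : (2 : ZMod n₁) = k - (k-1-1) := by ring
    rw [this, h', sub_self]
  have s1 := cc_sign n₂ l p
  have s2 := cc_sign n₂ (l-1) q
  have a1 := z1 k
  have a2 := z2 k
  have a3 := hflip _ hk1
  have a4 := cc_sign n₂ l (π (k+1))
  rw [e1, cc_self hn] at a1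
  rw [e2, cc_self hn] at a2
  have hρ' : cc n₂ (l-1) q = - cc n₂ l p := by omega
  have pair : ∀ i, i ≠ k → i + 1 ≠ k → cc n₂ l (π i) = cc n₂ l p ∧ cc n₂ l (π (i+1)) = cc n₂ l p := by
    intro i hi hi'
    have b1 := z1 i
    have b2 := z2 i
    have b3 := hflip _ hi
    have b4 := hflip _ hi'
    have b5 := cc_sign n₂ l (π i)
    have b6 := cc_sign n₂ l (π (i+1))
    have b7 := cc_sign n₁ i k
    rw [b3, b4, hρ'] at b2
    rcases s1 with s1 | s1 <;> rcases b5 with b5 | b5 <;> rcases b6 with b6 | b6 <;>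
      rcases b7 with b7 | b7 <;> rw [s1, b5, b6, b7] at b1 b2 <;> rw [s1, b5, b6] <;>
      first | exact ⟨rfl, rfl⟩ | (exfalso; revert b1 b2; norm_num)
  refine ⟨- cc n₂ l p, by omega, ?_⟩
  intro i hi
  rw [hflip i hi]
  have : cc n₂ l (π i) = cc n₂ l p := by
    by_cases hi' : i + 1 = k
    · have h6 : i = k - 1 - 1 + 1 := by rw [← hi']; ring
      rw [h6]
      refine (pair (k-1-1) hk2 ?_).2
      rw [← h6]; exact hi
    · exact (pair i hi hi').1
  omega

theorem NZ.allX (h : NZ n₁ n₂ m) (hX : ∀ k, (m (Sum.inl k)).isRight) : False := by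
  have hn := h.o1
  have t1 := h.t1
  have t2 := h.t2
  have : NeZero n₁ := ⟨by omega⟩
  have : NeZero n₂ := ⟨by omega⟩
  have hX' : ∀ k, ∃ r, m (Sum.inl k) = Sum.inr r := fun k => Sum.isRight_iff.1 (hX k)
  choose π hπ using hX'
  -- the key step from a cross row to the next one
  have key : ∀ l k, m (Sum.inr l) = Sum.inl k →
      (∀ i, i ≠ k → - cc n₂ l (π i) = -1) ∧
      ∃ l' k', m (Sum.inr l') = Sum.inl k' ∧ ∀ i, i ≠ k' → - cc n₂ l' (π i) = 1 := by
    intro l k h0
    have hex : ∃ d : ℕ, 0 < d ∧ (m (Sum.inr (l + (d : ZMod n₂)))).isLeft := by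
      refine ⟨n₂, by omega, ?_⟩
      simp [h0]
    classical
    let d := Nat.find hex
    have hd := Nat.find_spec hex
    have hmin : ∀ t : ℕ, 0 < t → t < d → ∃ r, m (Sum.inr (l + (t : ZMod n₂))) = Sum.inr r := by
      intro t ht htd
      have := Nat.find_min hex htd
      rcases hm : m (Sum.inr (l + (t : ZMod n₂))) with a | b
      · exact (this ⟨ht, by rw [hm]; rfl⟩).elim
      · exact ⟨b, rfl⟩
    have hdn : d < n₂ := by
      -- choose another column
      have hk1 : k + 1 ≠ k := by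
        intro h'
        have h4 := int_cast_ne (n := n₁) (t := 1) (by norm_num) (by norm_num; omega)
        apply h4; push_cast
        have : k + 1 = k + 0 := by rw [h', add_zero]
        exact add_left_cancel this
      have hne : π (k+1) - l ≠ 0 := by
        intro h'
        have h6 : π (k+1) = l := sub_eq_zero.1 h'
        have := h.inv (Sum.inl (k+1))
        rw [hπ, h6, h0] at this
        exact hk1 (Sum.inl.inj this).symm
      have hpos : 0 < (π (k+1) - l).val := by
        rcases Nat.eq_zero_or_pos (π (k+1) - l).val with h' | h'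
        · exact absurd ((ZMod.val_eq_zero _).1 h') hne
        · exact h'
      have hlt : (π (k+1) - l).val < n₂ := ZMod.val_lt _
      have : d ≤ (π (k+1) - l).val := by
        apply Nat.find_min'
        refine ⟨hpos, ?_⟩
        rw [ZMod.natCast_zmod_val]
        have : l + (π (k+1) - l) = π (k+1) := by ring
        rw [this, ← hπ, h.inv]; rfl
      omega
    obtain ⟨k2, hk2⟩ := Sum.isLeft_iff.1 hd.2
    have hk2' : m (Sum.inr (l + (d : ZMod n₂))) = Sum.inl k2 := hk2
    have hkk : k2 ≠ k := by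
      intro h'
      have h7 : m (m (Sum.inr (l + (d : ZMod n₂)))) = m (m (Sum.inr l)) := by rw [hk2', h0, h']
      rw [h.inv, h.inv] at h7
      have h8 := Sum.inr.inj h7
      have h4 := int_cast_ne (n := n₂) (t := (d:ℤ)) (by have := hd.1; omega) (by
        rw [abs_of_nonneg (by positivity)]; exact_mod_cast hdn)
      apply h4; push_cast
      have : l + (d : ZMod n₂) = l + 0 := by rw [h8, add_zero]
      exact add_left_cancel this
    have flip : ∀ t : ℕ, t < d → ∀ i, cc n₂ (l + (t : ZMod n₂)) (π i) = (-1)^t * cc n₂ l (π i) := by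
      intro t
      induction t with
      | zero => intro _ i; simp
      | succ t ih =>
        intro ht i
        obtain ⟨r, hr⟩ := hmin (t+1) (by omega) ht
        have hne : π i ≠ (l + (t : ZMod n₂)) + 1 := by
          intro h'
          have h6 : m (Sum.inr (l + ((t+1 : ℕ) : ZMod n₂))) = Sum.inl i := by
            push_cast; rw [← add_assoc, ← h', ← hπ, h.inv]
          rw [h6] at hr; simp at hr
        have := cc_succ (n := n₂) (by omega) hne
        have h8 : l + ((t+1 : ℕ) : ZMod n₂) = l + (t : ZMod n₂) + 1 := by push_cast; ring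
        rw [h8, this, ih (by omega) i, pow_succ]; ring
    obtain ⟨⟨q1, q2⟩, ρ, hρ, hρi⟩ := h.iso π hπ l k h0
    obtain ⟨⟨q1', q2'⟩, ρ', hρ', hρi'⟩ := h.iso π hπ (l + (d : ZMod n₂)) k2 hk2'
    have hd1 : l + (d : ZMod n₂) - 1 = l + ((d - 1 : ℕ) : ZMod n₂) := by
      have := hd.1
      rw [Nat.cast_sub (by omega)]; push_cast; ring
    have hfl := flip (d-1) (by have := hd.1; omega)
    rw [hd1] at q2' hρi'
    -- a third column
    obtain ⟨i3, hi3, hi3'⟩ : ∃ i3 : ZMod n₁, i3 ≠ k ∧ i3 ≠ k2 := by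
      by_contra hcon
      push Not at hcon
      have hcard : Fintype.card (ZMod n₁) ≤ 2 := by
        have hsub : (Finset.univ : Finset (ZMod n₁)) ⊆ {k, k2} := by
          intro x _
          by_cases hx : x = k
          · simp [hx]
          · simp [hcon x hx]
        calc Fintype.card (ZMod n₁) = (Finset.univ : Finset (ZMod n₁)).card := rfl
          _ ≤ ({k, k2} : Finset (ZMod n₁)).card := Finset.card_le_card hsub
          _ ≤ 2 := Finset.card_le_two
      rw [ZMod.card] at hcard
      omega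
    have f1 := hfl k
    have f2 := hfl i3
    have f3 := hfl k2
    have g1 := (hρi' k hkk.symm).2
    have g2 := (hρi' i3 hi3').2
    have g3 := (hρi i3 hi3).1
    have g4 := (hρi k2 hkk).1
    have hε : ((-1:ℤ))^(d-1) = 1 ∨ ((-1:ℤ))^(d-1) = -1 := neg_one_pow_eq_or ℤ _
    rw [f1, q1] at g1
    rw [f2] at g2
    rw [f3] at q2'
    have hfin : ρ = -1 ∧ ρ' = 1 := by
      have h1 : cc n₂ l (π i3) = -ρ := by omega
      have h2 : cc n₂ l (π k2) = -ρ := by omega
      rw [h1] at g2
      rw [h2] at q2'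
      rcases hε with e | e <;> rw [e] at g1 g2 q2' <;> constructor <;> omega
    refine ⟨fun i hi => by rw [(hρi i hi).1, hfin.1], l + (d : ZMod n₂), k2, hk2',
      fun i hi => ?_⟩
    rw [(hρi' i hi).1, hfin.2]
  have hk0 : m (Sum.inr (π 0)) = Sum.inl 0 := by rw [← hπ, h.inv]
  obtain ⟨-, l', k', hk', hall⟩ := key _ _ hk0
  have h2 := (key _ _ hk').1
  have hk1 : k' + 1 ≠ k' := by
    intro h'
    have h4 := int_cast_ne (n := n₁) (t := 1) (by norm_num) (by norm_num; omega)
    apply h4; push_cast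
    have : k' + 1 = k' + 0 := by rw [h', add_zero]
    exact add_left_cancel this
  have a := hall _ hk1
  have b := h2 _ hk1
  omega

/-- If some column is of chord type, both neighbours of a cross column are. -/
theorem NZ.nbr (h : NZ n₁ n₂ m) (h5 : 5 ≤ n₁) (h5' : 5 ≤ n₂)
    (hH : ∃ k, ¬ (m (Sum.inl k)).isRight) (k : ZMod n₁) (hk : (m (Sum.inl k)).isRight) :
    ¬ (m (Sum.inl (k-1))).isRight ∧ ¬ (m (Sum.inl (k+1))).isRight := by
  have : NeZero n₁ := ⟨by omega⟩
  have step : ∀ k, (m (Sum.inl k)).isRight →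
      ((m (Sum.inl (k-1))).isRight ↔ (m (Sum.inl (k+1))).isRight) := by
    intro k hk
    obtain ⟨l, hl⟩ := Sum.isRight_iff.1 hk
    have := Loc.lemM (L := h.loc h5 h5' k l) (by
      show m (Sum.inl (k + ((0:ℤ):ZMod n₁))) = Sum.inr (l + ((0:ℤ):ZMod n₂))
      simp [hl])
    have h1 : (m (Sum.inl (k + ((-1:ℤ):ZMod n₁)))).isRight ↔
      (m (Sum.inl (k + ((1:ℤ):ZMod n₁)))).isRight := this
    push_cast at h1
    rw [← sub_eq_add_neg] at h1
    exact h1
  have notR : ¬ (m (Sum.inl (k+1))).isRight := by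
    intro hR
    have all : ∀ t : ℕ, (m (Sum.inl (k + (t : ZMod n₁)))).isRight ∧
        (m (Sum.inl (k + (t : ZMod n₁) + 1))).isRight := by
      intro t
      induction t with
      | zero => simpa using ⟨hk, hR⟩
      | succ t ih =>
        have h1 := step _ ih.2
        rw [add_sub_cancel_right] at h1
        have h2 := h1.1 ih.1
        have h8 : k + ((t+1 : ℕ) : ZMod n₁) = k + (t : ZMod n₁) + 1 := by push_cast; ring
        rw [h8]; exact ⟨ih.2, h2⟩
    obtain ⟨k0, hk0⟩ := hH
    apply hk0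
    have := (all (k0 - k).val).1
    rw [ZMod.natCast_zmod_val] at this
    rwa [show k + (k0 - k) = k0 by ring] at this
  refine ⟨fun h' => notR ((step k hk).1 h'), notR⟩

theorem NZ.five (h : NZ n₁ n₂ m) (hH : ∃ k, ¬ (m (Sum.inl k)).isRight) : 5 ≤ n₁ := by
  by_contra hlt
  have t1 := h.t1
  have hn : n₁ = 3 := by
    obtain ⟨a, ha⟩ := h.o1; omega
  subst hn
  obtain ⟨k, hk⟩ := hH
  rcases hm : m (Sum.inl k) with k' | r
  · have h3 : ∀ a b : ZMod 3, b = a ∨ b = a + 1 ∨ a = b + 1 := by decide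
    rcases h3 k k' with h' | h' | h'
    · rw [h'] at hm; exact h.fix _ hm
    · rw [h'] at hm; exact h.na1 _ hm
    · have := h.inv (Sum.inl k)
      rw [hm, h'] at this
      exact h.na1 _ this
  · rw [hm] at hk; simp at hk

theorem NZ.elim (h : NZ n₁ n₂ m) : False := by
  by_cases hX : ∀ k, (m (Sum.inl k)).isRight
  · exact h.allX hX
  by_cases hY : ∀ l, (m (Sum.inr l)).isLeft
  · apply h.swap.allX
    intro k
    simpa using hY k
  push Not at hX hY
  have hX' : ∃ k, ¬ (m (Sum.inl k)).isRight := hX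
  have h5 := h.five hX'
  have hY' : ∃ k, ¬ ((fun x => (m x.swap).swap) (Sum.inl k : ZMod n₂ ⊕ ZMod n₁)).isRight := by
    obtain ⟨l, hl⟩ := hY
    exact ⟨l, by simpa using hl⟩
  have h5' := h.swap.five hY'
  have : NeZero n₁ := ⟨by omega⟩
  -- a cross edge exists
  obtain ⟨k, hk⟩ : ∃ k, (m (Sum.inl k)).isRight := by
    by_contra hcon
    push Not at hcon
    have hcon' : ∀ k, ∃ k', m (Sum.inl k) = Sum.inl k' := by
      intro k
      rcases hm : m (Sum.inl k) with k' | r
      · exact ⟨k', rfl⟩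
      · exact absurd (by rw [hm]; rfl) (hcon k)
    choose g hg using hcon'
    have ginv : Function.Involutive g := by
      intro k
      have := h.inv (Sum.inl k)
      rw [hg, hg] at this
      exact Sum.inl.inj this
    let e : Function.End (ZMod n₁) := g
    have he : e ^ 2 ^ 1 = 1 := by
      rw [pow_one, pow_two]
      funext x
      show g (g x) = x
      exact ginv x
    have : Fact (Nat.Prime 2) := ⟨Nat.prime_two⟩
    have hmod := Equiv.Perm.card_fixedPoints_modEq (f := e) (p := 2) (n := 1) he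
    have hempty : Fintype.card (Function.fixedPoints e) = 0 := by
      rw [Fintype.card_eq_zero_iff]
      refine ⟨fun x => ?_⟩
      have hx : g x.1 = x.1 := x.2
      apply h.fix (Sum.inl x.1)
      rw [hg, hx]
    rw [hempty, ZMod.card] at hmod
    have := h.o1
    rw [Nat.odd_iff] at this
    have h6 : n₁ % 2 = 0 % 2 := hmod
    omega
  obtain ⟨l, hl⟩ := Sum.isRight_iff.1 hk
  have hl' : m (Sum.inr l) = Sum.inl k := by rw [← hl, h.inv]
  obtain ⟨c1, c2⟩ := h.nbr h5 h5' hX' k hk
  obtain ⟨r1, r2⟩ := h.swap.nbr h5' h5 hY' l (by simp [hl'])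
  simp only [Sum.swap_inl, Sum.isRight_swap] at r1 r2
  refine Loc.lemHH (L := h.loc h5 h5' k l) ?_ ?_ ?_ ?_ ?_
  · show m (Sum.inl (k + ((0:ℤ):ZMod n₁))) = Sum.inr (l + ((0:ℤ):ZMod n₂))
    simp [hl]
  · show ¬ (m (Sum.inl (k + ((-1:ℤ):ZMod n₁)))).isRight
    push_cast; rw [← sub_eq_add_neg]; exact c1
  · show ¬ (m (Sum.inl (k + ((1:ℤ):ZMod n₁)))).isRight
    push_cast; exact c2
  · show ¬ (m (Sum.inr (l + ((-1:ℤ):ZMod n₂)))).isLeft
    push_cast; rw [← sub_eq_add_neg]; exact r1
  · show ¬ (m (Sum.inr (l + ((1:ℤ):ZMod n₂)))).isLeft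
    push_cast; exact r2

/-- **Balanced state.** -/
theorem exists_balanced (n₁ n₂ : ℕ) (o1 : Odd n₁) (o2 : Odd n₂) (t1 : 3 ≤ n₁) (t2 : 3 ≤ n₂)
    (m : ZMod n₁ ⊕ ZMod n₂ → ZMod n₁ ⊕ ZMod n₂) (inv : ∀ x, m (m x) = x) (fix : ∀ x, m x ≠ x)
    (na1 : ∀ k, m (Sum.inl k) ≠ Sum.inl (k+1)) (na2 : ∀ l, m (Sum.inr l) ≠ Sum.inr (l+1)) :
    ∃ (i : ZMod n₁) (j : ZMod n₂), sg i j (m (Sum.inl i)) + sg i j (m (Sum.inl (i+1))) +
      sg i j (m (Sum.inr j)) + sg i j (m (Sum.inr (j+1))) = 0 := by
  by_contra hcon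
  push Not at hcon
  exact NZ.elim ⟨o1, o2, t1, t2, inv, fix, na1, na2, hcon⟩

end Pool.Agent.Lib.Pb1c9a2
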