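import Mathlib
import Pool.Agent.Lib.Pb1c9a2.NoZero
import Pool.Agent.Lib.Pb1c9a2.Graph

set_option autoImplicit false
set_option linter.unusedSectionVars false

namespace Pool.Agent.Lib.Pb1c9a2

variable {V : Type*} [Fintype V] [DecidableEq V]

theorem exists_mu (G : SimpleGraph V) [DecidableRel G.Adj] (hG : G.IsRegularOfDegree 3)
    (σ : Equiv.Perm V) (h1 : ∀ v, G.Adj v (σ v)) (h2 : ∀ v, σ v ≠ σ.symm v) :
    ∃ μ : V → V, Fac G σ μ := by
  have h1' : ∀ v, G.Adj v (σ.symm v) := by
    intro v
    have := h1 (σ.symm v)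
    rw [σ.apply_symm_apply] at this
    exact this.symm
  have key : ∀ v, ∃ w, G.neighborFinset v \ {σ v, σ.symm v} = {w} := by
    intro v
    rw [← Finset.card_eq_one, Finset.card_sdiff_of_subset, G.card_neighborFinset_eq_degree, hG v,
      Finset.card_pair (h2 v)]
    intro w hw
    simp only [Finset.mem_insert, Finset.mem_singleton] at hw
    rw [G.mem_neighborFinset]
    rcases hw with h | h
    · rw [h]; exact h1 v
    · rw [h]; exact h1' v
  choose μ hμ using key
  have hmem : ∀ v, μ v ∈ G.neighborFinset v \ {σ v, σ.symm v} := by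
    intro v; rw [hμ]; simp
  have hn : ∀ v, G.Adj v (μ v) ∧ μ v ≠ σ v ∧ μ v ≠ σ.symm v := by
    intro v
    have := hmem v
    simp only [Finset.mem_sdiff, G.mem_neighborFinset, Finset.mem_insert, Finset.mem_singleton,
      not_or] at this
    exact this
  have hadj : ∀ v w, G.Adj v w ↔ w = σ v ∨ w = σ.symm v ∨ w = μ v := by
    intro v w
    constructor
    · intro h
      by_cases h3 : w = σ v
      · exact Or.inl h3
      by_cases h4 : w = σ.symm v
      · exact Or.inr (Or.inl h4)
      have : w ∈ G.neighborFinset v \ {σ v, σ.symm v} := by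
        simp only [Finset.mem_sdiff, G.mem_neighborFinset, Finset.mem_insert,
          Finset.mem_singleton, not_or]
        exact ⟨h, h3, h4⟩
      rw [hμ, Finset.mem_singleton] at this
      exact Or.inr (Or.inr this)
    · rintro (h | h | h)
      · rw [h]; exact h1 v
      · rw [h]; exact h1' v
      · rw [h]; exact (hn v).1
  refine ⟨μ, ?_, hadj, ?_, fun v => (hn v).2.1, fun v => (hn v).2.2⟩
  · intro v
    have h5 := (hn v).1.symm
    rw [hadj] at h5
    rcases h5 with h | h | h
    · exfalso; apply (hn v).2.2; rw [Equiv.eq_symm_apply]; exact h.symm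
    · exfalso; apply (hn v).2.1; rw [Equiv.eq_symm_apply] at h; exact h.symm
    · exact h.symm
  · intro v h
    have := (hn v).1
    rw [h] at this
    exact G.loopless.irrefl _ this

theorem bal_even (σ : Equiv.Perm V) (P : V → Prop) [DecidablePred P]
    (h : ∀ v, P (σ v) ↔ ¬ P v) :
    (Finset.univ.filter (fun v => P v)).card = (Finset.univ.filter (fun v => ¬ P v)).card := by
  apply Finset.card_bij (fun v _ => σ v)
  · intro v hv
    simp only [Finset.mem_filter, Finset.mem_univ, true_and] at hv ⊢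
    rw [h]; simpa using hv
  · intro a _ b _ h; exact σ.injective h
  · intro v hv
    refine ⟨σ.symm v, ?_, σ.apply_symm_apply v⟩
    simp only [Finset.mem_filter, Finset.mem_univ, true_and] at hv ⊢
    by_contra h3
    apply hv
    have := h (σ.symm v)
    rw [σ.apply_symm_apply] at this
    exact this.2 h3

theorem bal_odd (σ : Equiv.Perm V) (s : V → ℤ) (hs : ∀ v, s v = 1 ∨ s v = -1) (a c : V)
    (hac : a ≠ c) (ha : s a = 1) (ha' : s (σ a) = 1) (hc : s c = -1) (hc' : s (σ c) = -1)
    (h : ∀ v, v ≠ a → v ≠ c → s (σ v) = - s v) :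
    (Finset.univ.filter (fun v => s v = 1)).card =
      (Finset.univ.filter (fun v => ¬ s v = 1)).card := by
  have e1 : ∑ v, s (σ v) = ∑ v, s v := Equiv.sum_comp σ s
  have e2 : ∑ v, s (σ v) = ∑ v, (- s v + (if v = a then 2 else 0) + (if v = c then -2 else 0)) := by
    apply Finset.sum_congr rfl
    intro v _
    by_cases h1 : v = a
    · subst h1
      simp [hac, ha, ha']
    by_cases h2 : v = c
    · subst h2
      simp [h1, hc, hc']
    simp [h1, h2, h v h1 h2]
  rw [Finset.sum_add_distrib, Finset.sum_add_distrib, Finset.sum_neg_distrib] at e2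
  simp only [Finset.sum_ite_eq', Finset.mem_univ, if_true] at e2
  have e3 : ∑ v, s v = 0 := by omega
  have e4 : ∑ v, s v = ((Finset.univ.filter (fun v => s v = 1)).card : ℤ) -
      ((Finset.univ.filter (fun v => ¬ s v = 1)).card : ℤ) := by
    rw [← Finset.sum_filter_add_sum_filter_not Finset.univ (fun v => s v = 1)]
    rw [Finset.sum_congr rfl (g := fun _ => (1:ℤ)) (fun v hv => (Finset.mem_filter.1 hv).2)]
    rw [Finset.sum_congr rfl (s₁ := Finset.univ.filter (fun v => ¬ s v = 1)) (g := fun _ => (-1:ℤ))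
      (fun v hv => by
        have := (Finset.mem_filter.1 hv).2
        rcases hs v with h | h
        · exact absurd h this
        · exact h)]
    simp only [Finset.sum_const, nsmul_eq_mul]
    ring
  omega

theorem zmod_ne {n : ℕ} (hn : 3 ≤ n) (k : ZMod n) : k + 1 ≠ k - 1 ∧ k + 1 ≠ k := by
  constructor
  · intro h
    have h4 := int_cast_ne (n := n) (t := 2) (by norm_num) (by norm_num; omega)
    apply h4; push_cast
    have : (2 : ZMod n) = (k + 1) - (k - 1) := by ring
    rw [this, h, sub_self]
  · intro h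
    have h4 := int_cast_ne (n := n) (t := 1) (by norm_num) (by norm_num; omega)
    apply h4; push_cast
    have : (1 : ZMod n) = (k + 1) - k := by ring
    rw [this, h, sub_self]

theorem even_val_succ {n : ℕ} (hn : 3 ≤ n) (he : Even n) (k : ZMod n) :
    Even (k + 1).val ↔ ¬ Even k.val := by
  have : NeZero n := ⟨by omega⟩
  have : Fact (1 < n) := ⟨by omega⟩
  have hlt := ZMod.val_lt k
  by_cases h : k.val + 1 < n
  · rw [ZMod.val_add, ZMod.val_one, Nat.mod_eq_of_lt h, Nat.even_add_one]
  · have h1 : k.val + 1 = n := by omega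
    rw [ZMod.val_add, ZMod.val_one, h1, Nat.mod_self]
    have h2 : ¬ Even k.val := by
      intro h3
      rw [← h1, Nat.even_add_one] at he
      exact he h3
    simp [h2]

theorem good_two (G : SimpleGraph V) [DecidableRel G.Adj] (hG : G.IsRegularOfDegree 3)
    (n₁ n₂ : ℕ) (t1 : 3 ≤ n₁) (t2 : 3 ≤ n₂) (e : ZMod n₁ ⊕ ZMod n₂ ≃ V)
    (a1 : ∀ k, G.Adj (e (Sum.inl k)) (e (Sum.inl (k+1))))
    (a2 : ∀ k, G.Adj (e (Sum.inr k)) (e (Sum.inr (k+1)))) : Good G := by
  have : NeZero n₁ := ⟨by omega⟩
  have : NeZero n₂ := ⟨by omega⟩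
  let nx : Equiv.Perm (ZMod n₁ ⊕ ZMod n₂) := Equiv.sumCongr (Equiv.addRight 1) (Equiv.addRight 1)
  let σ : Equiv.Perm V := (e.symm.trans nx).trans e
  have s1 : ∀ k, σ (e (Sum.inl k)) = e (Sum.inl (k+1)) := by
    intro k
    show e (nx (e.symm (e (Sum.inl k)))) = _
    rw [e.symm_apply_apply]; rfl
  have s2 : ∀ k, σ (e (Sum.inr k)) = e (Sum.inr (k+1)) := by
    intro k
    show e (nx (e.symm (e (Sum.inr k)))) = _
    rw [e.symm_apply_apply]; rfl
  have s1' : ∀ k, σ.symm (e (Sum.inl k)) = e (Sum.inl (k-1)) := by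
    intro k; rw [Equiv.symm_apply_eq, s1, sub_add_cancel]
  have s2' : ∀ k, σ.symm (e (Sum.inr k)) = e (Sum.inr (k-1)) := by
    intro k; rw [Equiv.symm_apply_eq, s2, sub_add_cancel]
  have cas : ∀ v : V, (∃ k, v = e (Sum.inl k)) ∨ (∃ k, v = e (Sum.inr k)) := by
    intro v
    rcases h : e.symm v with k | k
    · left; exact ⟨k, by rw [← h, e.apply_symm_apply]⟩
    · right; exact ⟨k, by rw [← h, e.apply_symm_apply]⟩
  have hσ1 : ∀ v, G.Adj v (σ v) := by
    intro v
    rcases cas v with ⟨k, rfl⟩ | ⟨k, rfl⟩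
    · rw [s1]; exact a1 k
    · rw [s2]; exact a2 k
  have hσ2 : ∀ v, σ v ≠ σ.symm v := by
    intro v
    rcases cas v with ⟨k, rfl⟩ | ⟨k, rfl⟩
    · rw [s1, s1']; intro h
      exact (zmod_ne t1 k).1 (Sum.inl.inj (e.injective h))
    · rw [s2, s2']; intro h
      exact (zmod_ne t2 k).1 (Sum.inr.inj (e.injective h))
  obtain ⟨μ, hF⟩ := exists_mu G hG σ hσ1 hσ2
  have hσv : ∀ v, σ v ≠ v := by
    intro v h
    have := hσ1 v
    rw [h] at this
    exact G.loopless.irrefl _ this
  -- parity
  have hpar : Even (n₁ + n₂) := by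
    have h1 := G.sum_degrees_eq_twice_card_edges
    have h2 : ∑ v, G.degree v = 3 * Fintype.card V := by
      rw [Finset.sum_congr rfl (fun v _ => hG v)]
      simp [mul_comm]
    have h3 : Fintype.card V = n₁ + n₂ := by
      rw [← Fintype.card_congr e, Fintype.card_sum, ZMod.card, ZMod.card]
    rw [h2, h3] at h1
    rw [Nat.even_iff]; omega
  rcases Nat.even_or_odd n₁ with he1 | ho1
  · have he2 : Even n₂ := by
      rw [Nat.even_add] at hpar; exact hpar.1 he1
    let P : V → Prop := fun v => Even (Sum.elim (fun k : ZMod n₁ => k.val)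
      (fun k : ZMod n₂ => k.val) (e.symm v))
    have hP : ∀ v, P (σ v) ↔ ¬ P v := by
      intro v
      rcases cas v with ⟨k, rfl⟩ | ⟨k, rfl⟩
      · rw [s1]
        show Even (Sum.elim _ _ (e.symm (e (Sum.inl (k+1))))) ↔
          ¬ Even (Sum.elim _ _ (e.symm (e (Sum.inl k))))
        rw [e.symm_apply_apply, e.symm_apply_apply]
        exact even_val_succ t1 he1 k
      · rw [s2]
        show Even (Sum.elim _ _ (e.symm (e (Sum.inr (k+1))))) ↔
          ¬ Even (Sum.elim _ _ (e.symm (e (Sum.inr k))))
        rw [e.symm_apply_apply, e.symm_apply_apply]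
        exact even_val_succ t2 he2 k
    classical
    refine good_even G hF.inv hF.ne1 P (bal_even σ P hP) ?_
    intro x y hxy
    rw [hF.adj]
    constructor
    · rintro (h | h | h)
      · rw [h, hP] at hxy; tauto
      · have : σ y = x := by rw [h, σ.apply_symm_apply]
        rw [← this, hP] at hxy; tauto
      · exact h
    · intro h; exact Or.inr (Or.inr h)
  · have ho2 : Odd n₂ := by
      rw [Nat.even_add] at hpar
      rw [← Nat.not_even_iff_odd] at ho1 ⊢
      tauto
    let m : ZMod n₁ ⊕ ZMod n₂ → ZMod n₁ ⊕ ZMod n₂ := fun x => e.symm (μ (e x))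
    obtain ⟨i, j, hij⟩ := exists_balanced n₁ n₂ ho1 ho2 t1 t2 m
      (by intro x; simp only [m]; rw [e.apply_symm_apply, hF.inv, e.symm_apply_apply])
      (by intro x h; simp only [m] at h; rw [Equiv.symm_apply_eq] at h; exact hF.ne1 _ h)
      (by intro k h; simp only [m] at h; rw [Equiv.symm_apply_eq, ← s1] at h; exact hF.ne2 _ h)
      (by intro k h; simp only [m] at h; rw [Equiv.symm_apply_eq, ← s2] at h; exact hF.ne2 _ h)
    let s : V → ℤ := fun v => sg i j (e.symm v)
    have hs : ∀ v, s v = 1 ∨ s v = -1 := fun v => sg_sign _ _ _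
    have se : ∀ x, s (e x) = sg i j x := by
      intro x; show sg i j (e.symm (e x)) = _; rw [e.symm_apply_apply]
    have sa : s (e (Sum.inl i)) = 1 := by rw [se]; exact cc_self ho1 i
    have sb : s (e (Sum.inl (i+1))) = 1 := by
      rw [se]
      have := cc_pred (n := n₁) (i+1)
      rw [add_sub_cancel_right] at this
      exact this
    have sc : s (e (Sum.inr j)) = -1 := by
      rw [se]; show - cc n₂ j j = -1; rw [cc_self ho2]
    have sd : s (e (Sum.inr (j+1))) = -1 := by
      rw [se]; show - cc n₂ j (j+1) = -1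
      have := cc_pred (n := n₂) (j+1)
      rw [add_sub_cancel_right] at this
      rw [this]
    have sσ : ∀ v, v ≠ e (Sum.inl i) → v ≠ e (Sum.inr j) → s (σ v) = - s v := by
      intro v h1 h2
      rcases cas v with ⟨k, rfl⟩ | ⟨k, rfl⟩
      · rw [s1, se, se]
        have hk : k ≠ i := fun h => h1 (by rw [h])
        have := cc_succ (n := n₁) (i := i - 1) (k := k) (by omega) (by rw [sub_add_cancel]; exact hk)
        rw [sub_add_cancel] at this
        show cc n₁ i (k+1) = - cc n₁ i k
        rw [this, neg_neg]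
        unfold cc
        rw [show k + 1 - i - 1 = k - (i - 1) - 1 by ring]
      · rw [s2, se, se]
        have hk : k ≠ j := fun h => h2 (by rw [h])
        have := cc_succ (n := n₂) (i := j - 1) (k := k) (by omega) (by rw [sub_add_cancel]; exact hk)
        rw [sub_add_cancel] at this
        show - cc n₂ j (k+1) = - - cc n₂ j k
        rw [this, neg_neg]
        unfold cc
        rw [show k + 1 - j - 1 = k - (j - 1) - 1 by ring]
    have hac : e (Sum.inl i) ≠ e (Sum.inr j) := fun h => by
      have := e.injective h; simp at this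
    have hbal := bal_odd σ s hs (e (Sum.inl i)) (e (Sum.inr j)) hac sa (by rw [s1]; exact sb) sc
      (by rw [s2]; exact sd) sσ
    have hadj : ∀ x y, ((s x = 1) ↔ (s y = 1)) → (G.Adj x y ↔ y = μ x ∨
        (x = e (Sum.inl i) ∧ y = e (Sum.inl (i+1))) ∨ (x = e (Sum.inl (i+1)) ∧ y = e (Sum.inl i)) ∨
        (x = e (Sum.inr j) ∧ y = e (Sum.inr (j+1))) ∨
        (x = e (Sum.inr (j+1)) ∧ y = e (Sum.inr j))) := by
      have step : ∀ x, ((s x = 1) ↔ (s (σ x) = 1)) → x = e (Sum.inl i) ∨ x = e (Sum.inr j) := by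
        intro x hx
        by_contra hcon
        push Not at hcon
        have := sσ x hcon.1 hcon.2
        rw [this] at hx
        have := hs x
        omega
      intro x y hxy
      rw [hF.adj]
      constructor
      · rintro (h | h | h)
        · rw [h] at hxy ⊢
          rcases step x hxy with h' | h'
          · right; left; rw [h', s1]; exact ⟨rfl, rfl⟩
          · right; right; right; left; rw [h', s2]; exact ⟨rfl, rfl⟩
        · have hx : σ y = x := by rw [h, σ.apply_symm_apply]
          rw [← hx] at hxy ⊢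
          rcases step y hxy.symm with h' | h'
          · right; right; left; rw [h', s1]; exact ⟨rfl, rfl⟩
          · right; right; right; right; rw [h', s2]; exact ⟨rfl, rfl⟩
        · exact Or.inl h
      · rintro (h | ⟨h, h'⟩ | ⟨h, h'⟩ | ⟨h, h'⟩ | ⟨h, h'⟩)
        · exact Or.inr (Or.inr h)
        · left; rw [h, h', s1]
        · right; left; rw [h, h', s1', add_sub_cancel_right]
        · left; rw [h, h', s2]
        · right; left; rw [h, h', s2', add_sub_cancel_right]
    have m1 : μ (e (Sum.inl i)) ≠ e (Sum.inl (i+1)) := by rw [← s1]; exact hF.ne2 _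
    have m2 : μ (e (Sum.inr j)) ≠ e (Sum.inr (j+1)) := by rw [← s2]; exact hF.ne2 _
    have m3 : μ (e (Sum.inr (j+1))) ≠ e (Sum.inr j) := by
      have := hF.ne3 (e (Sum.inr (j+1)))
      rw [s2', add_sub_cancel_right] at this
      exact this
    have d1 : e (Sum.inl i) ≠ e (Sum.inl (i+1)) := by
      rw [← s1]; exact (hσv _).symm
    have d2 : e (Sum.inr j) ≠ e (Sum.inr (j+1)) := by
      rw [← s2]; exact (hσv _).symm
    have hsum : s (μ (e (Sum.inl i))) + s (μ (e (Sum.inl (i+1)))) + s (μ (e (Sum.inr j))) +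
        s (μ (e (Sum.inr (j+1)))) = 0 := hij
    have g1 := hs (μ (e (Sum.inl i)))
    have g2 := hs (μ (e (Sum.inl (i+1))))
    have g3 := hs (μ (e (Sum.inr j)))
    have g4 := hs (μ (e (Sum.inr (j+1))))
    by_cases hcase : s (μ (e (Sum.inl i))) = - s (μ (e (Sum.inr j)))
    · refine good_odd G hF.inv hF.ne1 (fun v => s v = 1) hbal (e (Sum.inl i)) (e (Sum.inl (i+1)))
        (e (Sum.inr j)) (e (Sum.inr (j+1))) sa sb (by omega) (by omega) d1 m1 d2 m2 ?_ ?_ hadj
      · omega
      · omega
    · refine good_odd G hF.inv hF.ne1 (fun v => s v = 1) hbal (e (Sum.inl i)) (e (Sum.inl (i+1)))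
        (e (Sum.inr (j+1))) (e (Sum.inr j)) sa sb (by omega) (by omega) d1 m1 d2.symm m3 ?_ ?_ ?_
      · omega
      · omega
      · intro x y hxy
        rw [hadj x y hxy]
        constructor
        · rintro (h | h | h | h | h)
          · exact Or.inl h
          · exact Or.inr (Or.inl h)
          · exact Or.inr (Or.inr (Or.inl h))
          · exact Or.inr (Or.inr (Or.inr (Or.inr h)))
          · exact Or.inr (Or.inr (Or.inr (Or.inl h)))
        · rintro (h | h | h | h | h)
          · exact Or.inl h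
          · exact Or.inr (Or.inl h)
          · exact Or.inr (Or.inr (Or.inl h))
          · exact Or.inr (Or.inr (Or.inr (Or.inr h)))
          · exact Or.inr (Or.inr (Or.inr (Or.inl h)))

/-- Parametrisation of a cycle by `ZMod`. -/
theorem cycle_param {G : SimpleGraph V} {u : V} (p : G.Walk u u) (hp : p.IsCycle) :
    ∃ φ : ZMod p.length → V, Function.Injective φ ∧ (∀ k, G.Adj (φ k) (φ (k+1))) ∧
      ∀ v, v ∈ p.support ↔ ∃ k, φ k = v := by
  have h3 := hp.three_le_length
  have : NeZero p.length := ⟨by omega⟩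
  have : Fact (1 < p.length) := ⟨by omega⟩
  refine ⟨fun k => p.getVert k.val, ?_, ?_, ?_⟩
  · intro a b hab
    apply ZMod.val_injective
    have ha := ZMod.val_lt a
    have hb := ZMod.val_lt b
    exact hp.getVert_injOn' (show a.val ≤ p.length - 1 by omega)
      (show b.val ≤ p.length - 1 by omega) hab
  · intro k
    have hk := ZMod.val_lt k
    by_cases h : k.val + 1 < p.length
    · have h1 : (k + 1).val = k.val + 1 := by
        rw [ZMod.val_add, ZMod.val_one, Nat.mod_eq_of_lt h]
      simp only [h1]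
      exact p.adj_getVert_succ hk
    · have h1 : k.val + 1 = p.length := by omega
      have h2 : (k + 1).val = 0 := by
        rw [ZMod.val_add, ZMod.val_one, h1, Nat.mod_self]
      simp only [h2]
      have h4 := p.adj_getVert_succ hk
      rw [h1, p.getVert_length] at h4
      rw [p.getVert_zero]
      exact h4
  · intro v
    rw [SimpleGraph.Walk.mem_support_iff_exists_getVert]
    constructor
    · rintro ⟨n, hn, hle⟩
      rcases Nat.lt_or_ge n p.length with h | h
      · refine ⟨(n : ZMod p.length), ?_⟩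
        simp only [ZMod.val_natCast_of_lt h]
        exact hn
      · have : n = p.length := by omega
        refine ⟨0, ?_⟩
        simp only [ZMod.val_zero]
        rw [p.getVert_zero, ← hn, this, p.getVert_length]
    · rintro ⟨k, hk⟩
      exact ⟨k.val, hk, (ZMod.val_lt k).le⟩

theorem good_cycles (G : SimpleGraph V) [DecidableRel G.Adj] (hG : G.IsRegularOfDegree 3)
    {u w : V} (p : G.Walk u u) (q : G.Walk w w) (hp : p.IsCycle) (hq : q.IsCycle)
    (hdisj : ∀ v, v ∈ p.support → v ∉ q.support)
    (hcov : ∀ v, v ∈ p.support ∨ v ∈ q.support) : Good G := by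
  obtain ⟨φ, f1, f2, f3⟩ := cycle_param p hp
  obtain ⟨ψ, g1, g2, g3⟩ := cycle_param q hq
  have hbij : Function.Bijective (Sum.elim φ ψ) := by
    constructor
    · rintro (a | a) (b | b) hab
      · rw [f1 hab]
      · exact (hdisj _ ((f3 _).2 ⟨a, rfl⟩) ((g3 _).2 ⟨b, hab.symm⟩)).elim
      · exact (hdisj _ ((f3 _).2 ⟨b, rfl⟩) ((g3 _).2 ⟨a, hab⟩)).elim
      · rw [g1 hab]
    · intro v
      rcases hcov v with h | h
      · obtain ⟨k, hk⟩ := (f3 v).1 h
        exact ⟨Sum.inl k, hk⟩
      · obtain ⟨k, hk⟩ := (g3 v).1 h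
        exact ⟨Sum.inr k, hk⟩
  exact good_two G hG _ _ hp.three_le_length hq.three_le_length
    (Equiv.ofBijective _ hbij) f2 g2

end Pool.Agent.Lib.Pb1c9a2
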